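import Pool.Agent.Run7.h182.WL.Lim4
import Pool.Agent.Run7.h630.WL.Lim
import Pool.Agent.Run7.h897.ST.Wgr
import Pool.Agent.Run7.h897.ST.Joint

/-!
# The area law for all the representations with non-zero N-ality
-/

set_option autoImplicit false
set_option linter.unusedSectionVars false
set_option linter.unusedVariables false
set_option linter.style.haveILetI false

open MeasureTheory Matrix Filter Topology
open Run7.h4.YM
open Run7.h4.VS (action2)
open Run7.h630.WL (SiteZ LinkZ dirZ per IsLimit side rect)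
open Pool.Agent.Run7.h897.ST (S6)

namespace Run7.h182.WL

noncomputable section

variable {N l d : ℕ} [NeZero N] [NeZero l]

lemma det_smul_one' (w : ℂ) : det (w • (1 : Matrix (Fin N) (Fin N) ℂ)) = w ^ N := by
  rw [det_smul, det_one, mul_one, Fintype.card_fin]

/-- the `N`-ality matters modulo `N` -/
lemma Nality.mod {ρ : SU N →* unitaryGroup (Fin d) ℂ} {c : ℕ} (h : Nality ρ c) :
    Nality ρ (c % N) := by
  intro z w hz
  rw [h z w hz]
  have h1 : w ^ N = 1 := by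
    have h2 : det z.1 = 1 := (mem_specialUnitaryGroup_iff.1 z.2).2
    rw [hz, det_smul_one'] at h2
    exact h2
  have h2 : w ^ c = w ^ (c % N) := by
    conv_lhs => rw [← Nat.mod_add_div c N, pow_add, pow_mul, h1, one_pow, mul_one]
  rw [h2]

lemma rect_zero_left (V : LinkZ l → SU N) (x : SiteZ l) (R : ℕ) : rect V x 0 R = 1 := by
  unfold rect
  have h1 : ∀ y : SiteZ l, side V 0 y 0 = 1 := fun y => by simp [side]
  rw [h1, h1, zero_nsmul, add_zero, inv_one, mul_one, one_mul, mul_inv_cancel]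

lemma rect_zero_right (V : LinkZ l → SU N) (x : SiteZ l) (T : ℕ) : rect V x T 0 = 1 := by
  unfold rect
  have h1 : ∀ y : SiteZ l, side V 1 y 0 = 1 := fun y => by simp [side]
  rw [h1, h1, zero_nsmul, add_zero, inv_one, mul_one, mul_one, mul_inv_cancel]

variable [MeasurableSpace (SU N)] [BorelSpace (SU N)]

/-- **The area law.** -/
theorem area (l k : ℕ) [NeZero l] (hN : 2 ≤ N) (hk : Nat.Coprime k N) (μ : Measure (SU N))
    [IsProbabilityMeasure μ] [μ.IsHaarMeasure] :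
    ∃ (S : ℕ → ℝ) (σ : ℕ → ℝ → ℝ) (β₀ : ℝ),
      (∀ j, Tendsto (fun p : ℕ × ℕ => sInf (Set.range fun U : Link (p.1 + 1) (p.2 + 1) l → SU N =>
        action2 k j U)) atTop (𝓝 (S j))) ∧
      (∀ c : ℕ, ¬ N ∣ c → ∃ T : ℝ, 0 < T ∧ IsLeast {s | ∃ j : ℕ, ¬ N ∣ c * j ∧ s = S j} T ∧
        Tendsto (fun β => -Real.log (σ c β) / β) atTop (𝓝 T)) ∧
      ∀ β : ℝ, β₀ ≤ β → ∃ ν : Measure (LinkZ l → SU N), IsLimit k μ β ν ∧
        ∀ c : ℕ, ¬ N ∣ c → 0 < σ c β ∧
          ∀ (d : ℕ) (ρ : SU N →* unitaryGroup (Fin d) ℂ), Continuous ρ → Nality ρ c →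
            ∀ (x : SiteZ l) (T R : ℕ),
              ‖∫ V, trace (ρ (rect V x T R)).1 ∂ν‖ ≤ d * Real.exp (-(σ c β * (T * R))) := by
  letI : MeasurableSpace (S6 N) := borel _
  haveI : BorelSpace (S6 N) := ⟨rfl⟩
  obtain ⟨S, σ, h1, h2, h3⟩ := Pool.Agent.Run7.h897.ST.joint (N := N) l k hN hk μ
  obtain ⟨β1, hW⟩ := Pool.Agent.Run7.h897.PC.W0 (N := N) l k hN hk μ h2 fun c hc => by
    obtain ⟨T, -, -, h, -⟩ := h3 c hc
    exact h
  obtain ⟨β2, hL⟩ := Run7.h630.WL.limit_exists N l k hN hk μ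
  have hpos : ∀ᶠ β : ℝ in atTop, ∀ c ∈ Finset.range N, c ≠ 0 → 0 < σ c β := by
    rw [Filter.eventually_all_finset]
    intro c hc
    by_cases hc0 : c = 0
    · exact Eventually.of_forall fun β h => absurd hc0 h
    have hcN : ¬ N ∣ c := fun h => by
      have := Nat.le_of_dvd (Nat.pos_of_ne_zero hc0) h
      have := Finset.mem_range.1 hc
      omega
    obtain ⟨T, -, -, h, -⟩ := h3 c hcN
    filter_upwards [h] with β h _ using h
  obtain ⟨β3, hpos⟩ := eventually_atTop.1 hpos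
  have hmod : ∀ c : ℕ, ¬ N ∣ c → ¬ N ∣ c % N := fun c hc h => hc ((Nat.dvd_mod_iff dvd_rfl).1 h)
  refine ⟨S, fun c => σ (c % N), max β1 (max β2 β3), h1, fun c hc => ?_, fun β hβ => ?_⟩
  · obtain ⟨T, hT0, hT, -, hT2⟩ := h3 (c % N) (hmod c hc)
    refine ⟨T, hT0, ?_, hT2⟩
    have he : ∀ j : ℕ, N ∣ c % N * j ↔ N ∣ c * j := fun j => by
      rw [Nat.dvd_iff_mod_eq_zero, Nat.dvd_iff_mod_eq_zero, Nat.mod_mul_mod]
    simp only [he] at hT
    exact hT
  have b1 : β1 ≤ β := (le_max_left _ _).trans hβ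
  have b2 : β2 ≤ β := (le_max_left _ _).trans ((le_max_right _ _).trans hβ)
  have b3 : β3 ≤ β := (le_max_right _ _).trans ((le_max_right _ _).trans hβ)
  obtain ⟨ν, hν⟩ := hL β b2
  haveI := hν.prob
  refine ⟨ν, hν, fun c hc => ⟨hpos β b3 (c % N) (Finset.mem_range.2 (Nat.mod_lt _ (NeZero.pos N)))
    (fun h => hc (Nat.dvd_of_mod_eq_zero h)), fun d ρ hρ hρc x T R => ?_⟩⟩
  rcases Nat.eq_zero_or_pos d with rfl | hd
  · have : ∀ V : LinkZ l → SU N, trace (ρ (rect V x T R)).1 = 0 := fun V => by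
      simp [Matrix.trace]
    simp [this]
  haveI : NeZero d := ⟨by omega⟩
  have htriv : (∀ V : LinkZ l → SU N, rect V x T R = 1) → (T : ℝ) * R = 0 →
      ‖∫ V, trace (ρ (rect V x T R)).1 ∂ν‖ ≤ d * Real.exp (-(σ (c % N) β * (T * R))) := by
    intro h4 h5
    simp only [h4, map_one, h5, mul_zero, neg_zero, Real.exp_zero, mul_one]
    have h6 : trace (1 : unitaryGroup (Fin d) ℂ).1 = (d : ℂ) := by
      have : (1 : unitaryGroup (Fin d) ℂ).1 = (1 : Matrix (Fin d) (Fin d) ℂ) := rfl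
      rw [this, trace_one, Fintype.card_fin]
    rw [h6]
    simp
  rcases Nat.eq_zero_or_pos T with rfl | hT
  · exact htriv (fun V => rect_zero_left V x R) (by simp)
  rcases Nat.eq_zero_or_pos R with rfl | hR
  · exact htriv (fun V => rect_zero_right V x T) (by simp)
  have hcore := core μ hk hν hρ x (a := T) (b := R) hT (s := σ (c % N) β * R) fun δ hδ => by
    obtain ⟨M0, hM0⟩ := hW β b1 d (c % N) ρ hρ (fun z w h => hρc.mod z w h) R hR δ hδ
    refine ⟨M0, fun m' hm' => ?_⟩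
    obtain ⟨C, hC, hF⟩ := hM0 (m' + 1) (by omega)
    refine ⟨Pool.Agent.Run7.h897.PC.Ev μ k l β (m' + 1), C,
      Pool.Agent.Run7.h897.PC.Ev_ratio μ β, fun q => ?_⟩
    have h4 := hF (q + 1)
    rw [show 2 * (σ (c % N) β * (R : ℝ)) = 2 * σ (c % N) β * R by ring]
    exact h4
  refine hcore.trans (le_of_eq ?_)
  congr 2
  ring

end

end Run7.h182.WL
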