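import Mathlib
import Pool.Agent.Run7.h4.YM.Defs

/-!
# Wilson loops
-/

open MeasureTheory Matrix
open Run7.h4.YM

namespace Run7.h182.WL

noncomputable section

variable {N n L l : ℕ}

/-- the product of the link variables along the segment of length `a` in direction `0` from the
site `(0, u, 0, 0)` to the site `(a, u, 0, 0)` -/
def segT (a : ℕ) (U : Link n L l → SU N) (u : ZMod L) : SU N :=
  ((List.range a).map fun t : ℕ => U (0, ((t : ZMod n), u, 0, 0))).prod

/-- the product of the link variables along the segment of length `b` in direction `1` from the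
site `(t, 0, 0, 0)` to the site `(t, b, 0, 0)` -/
def segX (b : ℕ) (U : Link n L l → SU N) (t : ZMod n) : SU N :=
  ((List.range b).map fun u : ℕ => U (1, (t, (u : ZMod L), 0, 0))).prod

/-- the product of the link variables around the rectangle with the corners `(0, 0, 0, 0)` and
`(a, b, 0, 0)` in the plane `(0, 1)` -/
def loop (a b : ℕ) (U : Link n L l → SU N) : SU N :=
  segT a U 0 * segX b U (a : ZMod n) * (segT a U (b : ZMod L))⁻¹ * (segX b U 0)⁻¹

/-- the Wilson loop in the representation `ρ`, normalised -/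
def wilson {d : ℕ} (ρ : SU N →* unitaryGroup (Fin d) ℂ) (a b : ℕ) (U : Link n L l → SU N) : ℂ :=
  trace (ρ (loop a b U)).1 / d

/-- its integral with the Wilson weight, not normalised by the partition function -/
def Wn {d : ℕ} (ρ : SU N →* unitaryGroup (Fin d) ℂ) (n L l : ℕ) [NeZero n] [NeZero L] [NeZero l]
    [MeasurableSpace (SU N)] (μ : Measure (SU N)) (k : ℕ) (β : ℝ) (a b : ℕ) : ℂ :=
  ∫ U : Link n L l → SU N, wilson ρ a b U * Real.exp (-(β * action k U))
    ∂(Measure.pi fun _ => μ)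

/-- the correlation of two Polyakov loops in the representation `ρ`, not normalised by the
partition function -/
def Fr {d : ℕ} (ρ : SU N →* unitaryGroup (Fin d) ℂ) (n L l : ℕ) [NeZero n] [NeZero L] [NeZero l]
    [MeasurableSpace (SU N)] (μ : Measure (SU N)) (k : ℕ) (β : ℝ) (R : ℕ) : ℝ :=
  ∫ U : Link n L l → SU N,
    (trace (ρ (line U 0)).1 / d * star (trace (ρ (line U (R : ZMod L))).1 / d)).re *
      Real.exp (-(β * action k U)) ∂(Measure.pi fun _ => μ)

/-- `ρ` has the `N`-ality `c`: the centre acts by the power `c` -/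
def Nality {d : ℕ} (ρ : SU N →* unitaryGroup (Fin d) ℂ) (c : ℕ) : Prop :=
  ∀ (z : SU N) (w : ℂ), z.1 = w • (1 : Matrix (Fin N) (Fin N) ℂ) →
    (ρ z).1 = w ^ c • (1 : Matrix (Fin d) (Fin d) ℂ)

/-- the partition function -/
def Zn {N : ℕ} (n L l : ℕ) [NeZero n] [NeZero L] [NeZero l]
    [MeasurableSpace (SU N)] (μ : Measure (SU N)) (k : ℕ) (β : ℝ) : ℝ :=
  ∫ U : Link n L l → SU N, Real.exp (-(β * action k U)) ∂(Measure.pi fun _ => μ)

/-- W1: the Wilson loop is bounded by the exponential rate of the Polyakov loops -/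
def S_W1 : Prop := ∀ (N l k L d : ℕ) [NeZero N] [NeZero l] [NeZero L] [NeZero d]
  [MeasurableSpace (SU N)] [BorelSpace (SU N)] (μ : Measure (SU N)) [IsProbabilityMeasure μ]
  [μ.IsHaarMeasure] (β : ℝ) (ρ : SU N →* unitaryGroup (Fin d) ℂ), Continuous ρ →
  ∀ (a b r r' : ℕ) [NeZero (2 * r)] [NeZero (2 * r')] [NeZero (a + (r + r'))] (C E : ℝ), 1 ≤ a →
    (∀ (n : ℕ) [NeZero (2 * n)], Fr ρ (2 * n) L l μ k β b ≤ C * Real.exp (n * E)) →
    ‖Wn ρ (a + (r + r')) L l μ k β a b‖ ≤
      Real.sqrt (Zn (2 * r) L l μ k β * Zn (2 * r') L l μ k β) * Real.exp (a * E / 2)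

end

end Run7.h182.WL
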