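import Pool.Agent.Run7.h182.PC.Mk

/-!
# The bound for two arcs with insertions
-/

set_option autoImplicit false
set_option linter.unusedSectionVars false
set_option linter.unusedVariables false

open MeasureTheory Matrix
open scoped ComplexConjugate
open Pool.Agent.Run7.h897.FS

namespace Run7.h182.WL

open Run7.h182.PC

noncomputable section

/-! ### log-convex sequences -/

/-- the chord of a convex sequence -/
lemma chord {u : ℕ → ℝ} {n : ℕ} (h : ∀ j, j + 2 ≤ n → 2 * u (j + 1) ≤ u j + u (j + 2)) {a : ℕ}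
    (ha : a ≤ n) : n * u a ≤ (n - a) * u 0 + a * u n := by
  rcases Nat.eq_zero_or_pos a with rfl | ha0
  · simp
  -- slopes
  have hs : ∀ i j, i ≤ j → j + 1 ≤ n → u (i + 1) - u i ≤ u (j + 1) - u j := by
    intro i j hij
    induction j, hij using Nat.le_induction with
    | base => exact fun _ => le_rfl
    | succ j hij ih =>
      intro hj
      have h1 := ih (by omega)
      have h2 := h j (by omega)
      have h3 : j + 1 + 1 = j + 2 := rfl
      rw [h3]
      linarith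
  obtain ⟨c, rfl⟩ : ∃ c, a = c + 1 := ⟨a - 1, by omega⟩
  obtain ⟨d, hd⟩ : ∃ d, d = u (c + 1) - u c := ⟨_, rfl⟩
  have h1 : ∀ i, i ≤ c + 1 → u (c + 1) - u (c + 1 - i) ≤ i * d := by
    intro i
    induction i with
    | zero => intro _; simp
    | succ i ih =>
      intro hi
      have h2 := ih (by omega)
      have h3 := hs (c + 1 - (i + 1)) c (by omega) (by omega)
      have h4 : c + 1 - (i + 1) + 1 = c + 1 - i := by omega
      rw [h4, ← hd] at h3
      rw [Nat.cast_add, Nat.cast_one]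
      linarith
  have h2 : ∀ i, c + 1 + i ≤ n → i * d ≤ u (c + 1 + i) - u (c + 1) := by
    intro i
    induction i with
    | zero => intro _; simp
    | succ i ih =>
      intro hi
      have h2 := ih (by omega)
      have h3 := hs c (c + 1 + i) (by omega) (by omega)
      rw [← hd] at h3
      push_cast
      have h4 : c + 1 + (i + 1) = c + 1 + i + 1 := rfl
      rw [h4]
      linarith
  have e1 := h1 (c + 1) le_rfl
  rw [Nat.sub_self] at e1
  obtain ⟨t, rfl⟩ : ∃ t, n = c + 1 + t := ⟨n - (c + 1), by omega⟩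
  have e2 := h2 t le_rfl
  push_cast at e1 e2 ⊢
  have c0 : (0 : ℝ) ≤ c + 1 := by positivity
  have t0 : (0 : ℝ) ≤ t := by positivity
  nlinarith [mul_le_mul_of_nonneg_left e1 t0, mul_le_mul_of_nonneg_left e2 c0]

/-- the chord of a log-convex sequence -/
lemma lchord {g : ℕ → ℝ} (h0 : ∀ j, 0 ≤ g j) (h : ∀ j, g (j + 1) ^ 2 ≤ g j * g (j + 2)) {a n : ℕ}
    (ha : a ≤ n) (hg : 0 < g a) (ha1 : 1 ≤ a) : 0 < g 0 ∧ 0 < g n ∧
      n * Real.log (g a) ≤ (n - a) * Real.log (g 0) + a * Real.log (g n) := by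
  have down : ∀ j, 0 < g (j + 1) → 0 < g j := by
    intro j hj
    rcases (h0 j).lt_or_eq with h1 | h1
    · exact h1
    · have := h j
      rw [← h1, zero_mul] at this
      nlinarith [sq_nonneg (g (j + 1))]
  have up : ∀ j, 1 ≤ j → 0 < g j → 0 < g (j + 1) := by
    intro j hj hgj
    obtain ⟨i, rfl⟩ : ∃ i, j = i + 1 := ⟨j - 1, by omega⟩
    have h2 := h i
    rcases (h0 (i + 1 + 1)).lt_or_eq with h1 | h1
    · exact h1
    · rw [show i + 2 = i + 1 + 1 from rfl, ← h1, mul_zero] at h2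
      nlinarith [sq_nonneg (g (i + 1))]
  have dn : ∀ i, i ≤ a → 0 < g (a - i) := by
    intro i
    induction i with
    | zero => exact fun _ => hg
    | succ i ih =>
      intro hi
      apply down
      have h2 : a - (i + 1) + 1 = a - i := by omega
      rw [h2]
      exact ih (by omega)
  have un : ∀ i, 0 < g (a + i) := by
    intro i
    induction i with
    | zero => exact hg
    | succ i ih => exact up (a + i) (by omega) ih
  have hp : ∀ j, 0 < g j := by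
    intro j
    rcases Nat.lt_or_ge j a with hj | hj
    · have := dn (a - j) (by omega)
      rwa [show a - (a - j) = j by omega] at this
    · have := un (j - a)
      rwa [show a + (j - a) = j by omega] at this
  refine ⟨hp 0, hp n, chord (u := fun j => Real.log (g j)) (fun j _ => ?_) ha⟩
  have h1 := Real.log_le_log (by have := hp (j + 1); positivity) (h j)
  rw [Real.log_mul (hp j).ne' (hp (j + 2)).ne', Real.log_pow] at h1
  push_cast at h1
  exact h1

/-! ### operators -/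

variable {X : Type*} [MeasurableSpace X] {J : Type*} [Fintype J] [DecidableEq J] {μ : Measure X}
  [IsProbabilityMeasure μ]

/-- application of a kernel to the first variable -/
def AK (μ : Measure X) (κ : X → X → Matrix J J ℂ) (f : X × X → Matrix J J ℂ) (w : X × X) :
    Matrix J J ℂ := mint μ fun u => κ w.1 u * f (u, w.2)

lemma AK_b3 {κ : X → X → Matrix J J ℂ} (hk : BT (Function.uncurry κ)) {f : X × X → Matrix J J ℂ}
    (hf : BT f) : BT fun w : (X × X) × X => κ w.1.1 w.2 * f (w.2, w.1.2) :=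
  BT.mul (hk.comp (measurable_fst.fst.prodMk measurable_snd))
    (hf.comp (measurable_snd.prodMk measurable_fst.snd))

lemma AK_bt {κ : X → X → Matrix J J ℂ} (hk : BT (Function.uncurry κ)) {f : X × X → Matrix J J ℂ}
    (hf : BT f) : BT (AK μ κ f) := (AK_b3 hk hf).intg

/-- the complex form -/
def cf (μ : Measure X) (f g : X × X → Matrix J J ℂ) : ℂ :=
  ∫ z, trace (f z * (g z)ᴴ) ∂(μ.prod μ)

lemma frm_cf (f g : X × X → Matrix J J ℂ) : frm (μ.prod μ) f g = (cf μ f g).re := rfl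

/-- the Cauchy-Schwarz inequality for the complex form -/
lemma cf_cs {f g : X × X → Matrix J J ℂ} (hf : BT f) (hg : BT g) :
    ‖cf μ f g‖ ^ 2 ≤ frm (μ.prod μ) f f * frm (μ.prod μ) g g := by
  rcases eq_or_ne (cf μ f g) 0 with h0 | h0
  · rw [h0, norm_zero]
    have := frm_cs (ν := μ.prod μ) hf hg
    nlinarith [sq_nonneg (frm (μ.prod μ) f g)]
  obtain ⟨c, hc⟩ : ∃ c : ℂ, c = conj (cf μ f g) / ‖cf μ f g‖ := ⟨_, rfl⟩
  have hn : (‖cf μ f g‖ : ℂ) ≠ 0 := by
    rw [Ne, Complex.ofReal_eq_zero, norm_eq_zero]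
    exact h0
  have hc1 : c * conj c = 1 := by
    rw [hc, map_div₀, Complex.conj_conj, Complex.conj_ofReal, div_mul_div_comm, mul_comm (conj _),
      Complex.mul_conj, Complex.normSq_eq_norm_sq]
    push_cast
    field_simp
  have hb : BT fun z => c • f z := BT.smul (BC.const c) hf
  have h1 := frm_cs (ν := μ.prod μ) hb hg
  have e1 : frm (μ.prod μ) (fun z => c • f z) g = ‖cf μ f g‖ := by
    have : cf μ (fun z => c • f z) g = c * cf μ f g := by
      unfold cf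
      simp only [Matrix.smul_mul, Matrix.trace_smul, smul_eq_mul]
      rw [integral_const_mul]
    rw [frm_cf, this, hc, div_mul_eq_mul_div, mul_comm (conj _), Complex.mul_conj,
      Complex.normSq_eq_norm_sq]
    have h2 : (((‖cf μ f g‖ ^ 2 : ℝ) : ℂ)) / (‖cf μ f g‖ : ℂ) = ((‖cf μ f g‖ : ℝ) : ℂ) := by
      push_cast
      field_simp
    rw [h2, Complex.ofReal_re]
  have e2 : frm (μ.prod μ) (fun z => c • f z) (fun z => c • f z) = frm (μ.prod μ) f f := by
    unfold frm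
    have hc2 : conj c * c = 1 := by rw [mul_comm]; exact hc1
    simp only [Matrix.conjTranspose_smul, Matrix.smul_mul, Matrix.mul_smul, smul_smul,
      RCLike.star_def, hc1, hc2, one_smul]
  rw [e1, e2] at h1
  exact h1

/-- the adjoint -/
lemma AK_adj {κ κ' : X → X → Matrix J J ℂ} (hk : BT (Function.uncurry κ))
    (hk' : BT (Function.uncurry κ')) (hs : ∀ x y, (κ' x y)ᴴ = κ y x)
    {f g : X × X → Matrix J J ℂ} (hf : BT f) (hg : BT g) :
    frm (μ.prod μ) (AK μ κ f) g = frm (μ.prod μ) f (AK μ κ' g) := by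
  obtain ⟨t, ht⟩ : ∃ t : X → X → X → ℂ, t = fun x u z => trace (κ x u * f (u, z) * (g (x, z))ᴴ) :=
    ⟨_, rfl⟩
  have bt : BC fun w : (X × X) × X => t w.1.1 w.1.2 w.2 := by
    rw [ht]
    exact (BT.mul (BT.mul (hk.comp (measurable_fst.fst.prodMk measurable_fst.snd))
      (hf.comp (measurable_fst.snd.prodMk measurable_snd)))
      (hg.comp (measurable_fst.fst.prodMk measurable_snd)).star).trace
  have e1 : frm (μ.prod μ) (AK μ κ f) g = (∫ x, ∫ z, ∫ u, t x u z ∂μ ∂μ ∂μ).re := by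
    unfold frm
    rw [cfub ((AK_bt hk hf).mul hg.star).trace]
    congr 2
    funext x
    congr 1
    funext z
    rw [ht]
    have b1 : BT fun u => κ x u * f (u, z) :=
      (AK_b3 hk hf).comp (φ := fun u => ((x, z), u)) (measurable_const.prodMk measurable_id)
    unfold AK
    simp only
    rw [← mint_mul_right _ b1, mint_trace (b1.mul (BT.const _))]
  have e2 : frm (μ.prod μ) f (AK μ κ' g) = (∫ u, ∫ z, ∫ x, t x u z ∂μ ∂μ ∂μ).re := by
    unfold frm
    rw [cfub (hf.mul (AK_bt hk' hg).star).trace]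
    congr 2
    funext u
    congr 1
    funext z
    rw [ht]
    have b1 : BT fun x => κ' u x * g (x, z) :=
      (AK_b3 hk' hg).comp (φ := fun x => ((u, z), x)) (measurable_const.prodMk measurable_id)
    unfold AK
    simp only
    rw [mint_star, ← mint_mul_left _ b1.star, mint_trace ((BT.const _).mul b1.star)]
    congr 1
    funext x
    rw [Matrix.conjTranspose_mul, hs, ← Matrix.mul_assoc, Matrix.trace_mul_comm,
      ← Matrix.mul_assoc]
  rw [e1, e2]
  congr 1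
  have s1 : ∀ x, ∫ z, ∫ u, t x u z ∂μ ∂μ = ∫ u, ∫ z, t x u z ∂μ ∂μ := fun x => by
    refine cswp (f := fun z u => t x u z) ?_
    exact bt.comp (φ := fun w : X × X => ((x, w.2), w.1))
      ((measurable_const.prodMk measurable_snd).prodMk measurable_fst)
  have s2 : ∀ u, ∫ z, ∫ x, t x u z ∂μ ∂μ = ∫ x, ∫ z, t x u z ∂μ ∂μ := fun u => by
    refine cswp (f := fun z x => t x u z) ?_
    exact bt.comp (φ := fun w : X × X => ((w.2, u), w.1))
      ((measurable_snd.prodMk measurable_const).prodMk measurable_fst)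
  simp only [s1, s2]
  refine cswp (f := fun x u => ∫ z, t x u z ∂μ) ?_
  exact bt.intg

/-- composition -/
lemma AK_AK {κ : X → X → Matrix J J ℂ} (hk : BT (Function.uncurry κ)) {m n : ℕ} (hm : 1 ≤ m)
    (hn : 1 ≤ n) {f : X × X → Matrix J J ℂ} (hf : BT f) :
    AK μ (kM μ κ m) (AK μ (kM μ κ n) f) = AK μ (kM μ κ (m + n)) f := by
  funext w
  unfold AK
  simp only
  have b1 : ∀ u, BT fun v => kM μ κ n u v * f (v, w.2) := fun u =>
    (AK_b3 (kM_bm hk hn) hf).comp (φ := fun v => ((u, w.2), v))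
      (measurable_const.prodMk measurable_id)
  have e1 : ∀ u, kM μ κ m w.1 u * (mint μ fun v => kM μ κ n u v * f (v, w.2)) =
      mint μ fun v => kM μ κ m w.1 u * (kM μ κ n u v * f (v, w.2)) := fun u => by
    rw [mint_mul_left _ (b1 u)]
  have e2 : ∀ v, kM μ κ (m + n) w.1 v * f (v, w.2) =
      mint μ fun u => kM μ κ m w.1 u * (kM μ κ n u v * f (v, w.2)) := fun v => by
    rw [kM_semi hk hm hn, ← mint_mul_right]
    · congr 1
      funext u
      rw [Matrix.mul_assoc]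
    · exact (kM_l hk hm w.1).mul (kM_r hk hn v)
  simp only [e1, e2]
  refine mint_swap ?_
  exact ((kM_l hk hm w.1).comp measurable_fst).mul
    ((kM_bm hk hn).mul (hf.comp (measurable_snd.prodMk measurable_const)))

/-- the iterates -/
def Vj (μ : Measure X) (κ : X → X → Matrix J J ℂ) (f : X × X → Matrix J J ℂ) (j : ℕ) :
    X × X → Matrix J J ℂ := if j = 0 then f else AK μ (kM μ κ j) f

lemma Vj_bt {κ : X → X → Matrix J J ℂ} (hk : BT (Function.uncurry κ)) {f : X × X → Matrix J J ℂ}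
    (hf : BT f) (j : ℕ) : BT (Vj μ κ f j) := by
  unfold Vj
  split_ifs with h
  · exact hf
  · exact AK_bt (kM_bm hk (by omega)) hf

lemma Vj_frm {κ : X → X → Matrix J J ℂ} (hk : BT (Function.uncurry κ))
    (hs : ∀ x y, (κ x y)ᴴ = κ y x) {f : X × X → Matrix J J ℂ} (hf : BT f) (i j : ℕ) :
    frm (μ.prod μ) (Vj μ κ f i) (Vj μ κ f j) = frm (μ.prod μ) f (Vj μ κ f (i + j)) := by
  rcases Nat.eq_zero_or_pos i with rfl | hi
  · rw [zero_add]
    simp [Vj]
  have e1 : Vj μ κ f i = AK μ (kM μ κ i) f := by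
    unfold Vj
    rw [if_neg (by omega)]
  rw [e1, AK_adj (kM_bm hk hi) (kM_bm hk hi) (kM_herm hk hs hi) hf (Vj_bt hk hf j)]
  congr 1
  rcases Nat.eq_zero_or_pos j with rfl | hj
  · rw [add_zero, e1]
    simp [Vj]
  · unfold Vj
    rw [if_neg (by omega), if_neg (by omega), AK_AK hk hi hj hf]

lemma Vj_lc {κ : X → X → Matrix J J ℂ} (hk : BT (Function.uncurry κ))
    (hs : ∀ x y, (κ x y)ᴴ = κ y x) {f : X × X → Matrix J J ℂ} (hf : BT f) (j : ℕ) :
    frm (μ.prod μ) (Vj μ κ f (j + 1)) (Vj μ κ f (j + 1)) ^ 2 ≤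
      frm (μ.prod μ) (Vj μ κ f j) (Vj μ κ f j) *
        frm (μ.prod μ) (Vj μ κ f (j + 2)) (Vj μ κ f (j + 2)) := by
  have h1 : frm (μ.prod μ) (Vj μ κ f (j + 1)) (Vj μ κ f (j + 1)) =
      frm (μ.prod μ) (Vj μ κ f j) (Vj μ κ f (j + 2)) := by
    rw [Vj_frm hk hs hf, Vj_frm hk hs hf]
    congr 2
    ring
  rw [h1]
  exact frm_cs (Vj_bt hk hf j) (Vj_bt hk hf (j + 2))

/-! ### two arcs -/

section arcs

variable {κ0 κ1 : X → X → Matrix J J ℂ} {E : X → Matrix J J ℂ} {P : Matrix J J ℂ}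

/-- the arc with an insertion at its beginning -/
def Br (μ : Measure X) (κ1 : X → X → Matrix J J ℂ) (E : X → Matrix J J ℂ) (r : ℕ) (w : X × X) :
    Matrix J J ℂ := E w.1 * kM μ κ1 r w.1 w.2

lemma Br_bt (h1 : BT (Function.uncurry κ1)) (hE : BT E) {r : ℕ} (hr : 1 ≤ r) :
    BT (Br μ κ1 E r) := (hE.comp measurable_fst).mul (kM_bm h1 hr)

/-- the product of two arcs -/
lemma Br_Br (h1 : BT (Function.uncurry κ1)) (s1 : ∀ x y, (κ1 x y)ᴴ = κ1 y x) (hE : BT E)
    {r r' : ℕ} (hr : 1 ≤ r) (hr' : 1 ≤ r') (x v : X) :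
    mint μ (fun z => Br μ κ1 E r (x, z) * (Br μ κ1 E r' (v, z))ᴴ) =
      E x * kM μ κ1 (r + r') x v * (E v)ᴴ := by
  have b1 : BT fun z => kM μ κ1 r x z * kM μ κ1 r' z v := (kM_l h1 hr x).mul (kM_r h1 hr' v)
  rw [kM_semi h1 hr hr', ← mint_mul_left _ b1, ← mint_mul_right _ ((BT.const _).mul b1)]
  congr 1
  funext z
  unfold Br
  simp only
  rw [Matrix.conjTranspose_mul, kM_herm h1 s1 hr' v z]
  simp only [Matrix.mul_assoc]

/-- the integral of the two arcs -/
theorem arcs_eq (h0 : BT (Function.uncurry κ0)) (h1 : BT (Function.uncurry κ1))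
    (s1 : ∀ x y, (κ1 x y)ᴴ = κ1 y x) (hE : BT E) {a r r' : ℕ} (ha : 1 ≤ a)
    (hr : 1 ≤ r) (hr' : 1 ≤ r') :
    ∫ y, trace ((E y)ᴴ * mint μ fun u => kM μ κ0 a y u * (E u * kM μ κ1 (r + r') u y)) ∂μ =
      cf μ (Vj μ κ0 (Br μ κ1 E r) a) (Br μ κ1 E r') := by
  have hB := Br_bt (μ := μ) h1 hE hr
  have hB' := Br_bt (μ := μ) h1 hE hr'
  have hA : Vj μ κ0 (Br μ κ1 E r) a = AK μ (kM μ κ0 a) (Br μ κ1 E r) := by
    unfold Vj
    rw [if_neg (by omega)]
  unfold cf
  rw [hA, cfub ((AK_bt (kM_bm h0 ha) hB).mul hB'.star).trace]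
  congr 1
  funext y
  have c1 : BT fun u => kM μ κ0 a y u * (E u * kM μ κ1 (r + r') u y) :=
    (kM_l h0 ha y).mul (hE.mul (kM_r h1 (by omega) y))
  rw [← mint_mul_left _ c1, mint_trace ((BT.const _).mul c1)]
  have b3 : BT fun w : X × X => kM μ κ0 a y w.1 * Br μ κ1 E r (w.1, w.2) *
      (Br μ κ1 E r' (y, w.2))ᴴ :=
    (((kM_l h0 ha y).comp measurable_fst).mul hB).mul
      (hB'.comp (measurable_const.prodMk measurable_snd)).star
  have e1 : ∀ u, trace ((E y)ᴴ * (kM μ κ0 a y u * (E u * kM μ κ1 (r + r') u y))) =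
      ∫ z, trace (kM μ κ0 a y u * Br μ κ1 E r (u, z) * (Br μ κ1 E r' (y, z))ᴴ) ∂μ := by
    intro u
    have b4 : BT fun z => Br μ κ1 E r (u, z) * (Br μ κ1 E r' (y, z))ᴴ :=
      (hB.comp (measurable_const.prodMk measurable_id)).mul
        (hB'.comp (measurable_const.prodMk measurable_id)).star
    rw [Matrix.trace_mul_comm]
    have e2 : kM μ κ0 a y u * (E u * kM μ κ1 (r + r') u y) * (E y)ᴴ =
        kM μ κ0 a y u * (E u * kM μ κ1 (r + r') u y * (E y)ᴴ) := by
      simp only [Matrix.mul_assoc]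
    rw [e2, ← Br_Br h1 s1 hE hr hr', ← mint_mul_left _ b4, mint_trace ((BT.const _).mul b4)]
    congr 1
    funext z
    rw [Matrix.mul_assoc]
  simp only [e1]
  have e3 : ∀ z, trace (AK μ (kM μ κ0 a) (Br μ κ1 E r) (y, z) * (Br μ κ1 E r' (y, z))ᴴ) =
      ∫ u, trace (kM μ κ0 a y u * Br μ κ1 E r (u, z) * (Br μ κ1 E r' (y, z))ᴴ) ∂μ := by
    intro z
    have b5 : BT fun u => kM μ κ0 a y u * Br μ κ1 E r (u, z) :=
      (kM_l h0 ha y).mul (hB.comp (measurable_id.prodMk measurable_const))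
    unfold AK
    simp only
    rw [← mint_mul_right _ b5, mint_trace (b5.mul (BT.const _))]
  simp only [e3]
  exact cswp (f := fun u z => trace (kM μ κ0 a y u * Br μ κ1 E r (u, z) *
    (Br μ κ1 E r' (y, z))ᴴ)) b3.trace

/-- the square of the arc -/
lemma Br_sq (h1 : BT (Function.uncurry κ1)) (s1 : ∀ x y, (κ1 x y)ᴴ = κ1 y x) (hE : BT E)
    (hP : ∀ x, (E x)ᴴ * E x = P) (hsc : ∀ n, 1 ≤ n → ∀ x y, ∃ c : ℂ, kM μ κ1 n x y = c • 1)
    {r : ℕ} (hr : 1 ≤ r) : Fintype.card J * frm (μ.prod μ) (Br μ κ1 E r) (Br μ κ1 E r) =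
      (trace P).re * TrM μ κ1 (2 * r) := by
  have key : ∀ w : X × X, (Fintype.card J : ℂ) * trace (Br μ κ1 E r w * (Br μ κ1 E r w)ᴴ) =
      trace P * trace (kM μ κ1 r w.1 w.2 * (kM μ κ1 r w.1 w.2)ᴴ) := by
    intro w
    obtain ⟨c, hc⟩ := hsc r hr w.1 w.2
    unfold Br
    rw [Matrix.conjTranspose_mul, hc, Matrix.conjTranspose_smul, Matrix.conjTranspose_one]
    simp only [Matrix.smul_mul, Matrix.mul_smul, Matrix.mul_one, Matrix.one_mul, trace_smul,
      smul_eq_mul, trace_one]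
    rw [trace_mul_comm, hP]
    ring
  have hpr : ∀ w : X × X, (trace (kM μ κ1 r w.1 w.2 * (kM μ κ1 r w.1 w.2)ᴴ)).im = 0 := by
    intro w
    obtain ⟨c, hc⟩ := hsc r hr w.1 w.2
    rw [hc, Matrix.conjTranspose_smul, Matrix.conjTranspose_one]
    simp only [Matrix.smul_mul, Matrix.mul_smul, Matrix.mul_one, trace_smul,
      smul_eq_mul, trace_one, RCLike.star_def]
    rw [← mul_assoc, Complex.conj_mul']
    have : ((‖c‖ : ℂ) ^ 2 * (Fintype.card J : ℂ)) = ((‖c‖ ^ 2 * Fintype.card J : ℝ) : ℂ) := by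
      push_cast; ring
    rw [this, Complex.ofReal_im]
  rw [two_mul r, TrM_add h1 s1 hr hr]
  unfold frm
  have hB := Br_bt (μ := μ) h1 hE hr
  have hk := kM_bm (μ := μ) h1 hr
  have hk' : BT fun z : X × X => kM μ κ1 r z.1 z.2 := hk
  rw [re_int (hB.mul hB.star).trace, re_int (hk'.mul hk'.star).trace, ← integral_const_mul,
    ← integral_const_mul]
  congr 1
  funext w
  have h2 := congrArg Complex.re (key w)
  have e1 : ((Fintype.card J : ℂ) * trace (Br μ κ1 E r w * (Br μ κ1 E r w)ᴴ)).re =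
      Fintype.card J * (trace (Br μ κ1 E r w * (Br μ κ1 E r w)ᴴ)).re := by
    rw [← Complex.ofReal_natCast, Complex.re_ofReal_mul]
  rw [e1, Complex.mul_re, hpr w, mul_zero, sub_zero] at h2
  exact h2

/-- the kernel of the product of the arc and its adjoint -/
def Dr (μ : Measure X) (κ1 : X → X → Matrix J J ℂ) (E : X → Matrix J J ℂ) (r : ℕ) (w : X × X) :
    Matrix J J ℂ := E w.1 * kM μ κ1 r w.1 w.2 * (E w.2)ᴴ

lemma Dr_bt (h1 : BT (Function.uncurry κ1)) (hE : BT E) {r : ℕ} (hr : 1 ≤ r) :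
    BT (Dr μ κ1 E r) :=
  ((hE.comp measurable_fst).mul (kM_bm h1 hr)).mul (hE.comp measurable_snd).star

lemma Dr_sq (h1 : BT (Function.uncurry κ1)) (s1 : ∀ x y, (κ1 x y)ᴴ = κ1 y x) (hE : BT E)
    (hP : ∀ x, (E x)ᴴ * E x = P) (hsc : ∀ n, 1 ≤ n → ∀ x y, ∃ c : ℂ, kM μ κ1 n x y = c • 1)
    {r : ℕ} (hr : 1 ≤ r) : Fintype.card J * frm (μ.prod μ) (Dr μ κ1 E r) (Dr μ κ1 E r) =
      (trace (P * P)).re * TrM μ κ1 (2 * r) := by
  have key : ∀ w : X × X, (Fintype.card J : ℂ) * trace (Dr μ κ1 E r w * (Dr μ κ1 E r w)ᴴ) =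
      trace (P * P) * trace (kM μ κ1 r w.1 w.2 * (kM μ κ1 r w.1 w.2)ᴴ) := by
    intro w
    obtain ⟨c, hc⟩ := hsc r hr w.1 w.2
    unfold Dr
    rw [hc]
    simp only [Matrix.conjTranspose_mul, Matrix.conjTranspose_smul, Matrix.conjTranspose_one,
      Matrix.conjTranspose_conjTranspose, Matrix.smul_mul, Matrix.mul_smul, Matrix.mul_one,
      Matrix.one_mul, trace_smul, smul_eq_mul, trace_one]
    have e1 : trace (E w.1 * (E w.2)ᴴ * (E w.2 * (E w.1)ᴴ)) = trace (P * P) := by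
      have e2 : E w.1 * (E w.2)ᴴ * (E w.2 * (E w.1)ᴴ) = E w.1 * ((E w.2)ᴴ * E w.2 * (E w.1)ᴴ) := by
        simp only [Matrix.mul_assoc]
      rw [e2, trace_mul_comm, Matrix.mul_assoc, hP, hP]
    rw [e1]
    ring
  have hpr : ∀ w : X × X, (trace (kM μ κ1 r w.1 w.2 * (kM μ κ1 r w.1 w.2)ᴴ)).im = 0 := by
    intro w
    obtain ⟨c, hc⟩ := hsc r hr w.1 w.2
    rw [hc, Matrix.conjTranspose_smul, Matrix.conjTranspose_one]
    simp only [Matrix.smul_mul, Matrix.mul_smul, Matrix.mul_one, trace_smul,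
      smul_eq_mul, trace_one, RCLike.star_def]
    rw [← mul_assoc, Complex.conj_mul']
    have : ((‖c‖ : ℂ) ^ 2 * (Fintype.card J : ℂ)) = ((‖c‖ ^ 2 * Fintype.card J : ℝ) : ℂ) := by
      push_cast; ring
    rw [this, Complex.ofReal_im]
  rw [two_mul r, TrM_add h1 s1 hr hr]
  unfold frm
  have hB := Dr_bt (μ := μ) h1 hE hr
  have hk := kM_bm (μ := μ) h1 hr
  have hk' : BT fun z : X × X => kM μ κ1 r z.1 z.2 := hk
  rw [re_int (hB.mul hB.star).trace, re_int (hk'.mul hk'.star).trace, ← integral_const_mul,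
    ← integral_const_mul]
  congr 1
  funext w
  have h2 := congrArg Complex.re (key w)
  have e1 : ((Fintype.card J : ℂ) * trace (Dr μ κ1 E r w * (Dr μ κ1 E r w)ᴴ)).re =
      Fintype.card J * (trace (Dr μ κ1 E r w * (Dr μ κ1 E r w)ᴴ)).re := by
    rw [← Complex.ofReal_natCast, Complex.re_ofReal_mul]
  rw [e1, Complex.mul_re, hpr w, mul_zero, sub_zero] at h2
  exact h2

/-- the form of the powers -/
lemma Vj_Dr (h0 : BT (Function.uncurry κ0)) (s0 : ∀ x y, (κ0 x y)ᴴ = κ0 y x)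
    (h1 : BT (Function.uncurry κ1))
    (s1 : ∀ x y, (κ1 x y)ᴴ = κ1 y x) (hE : BT E) {n r : ℕ} (hn : 1 ≤ n) (hr : 1 ≤ r) :
    frm (μ.prod μ) (Br μ κ1 E r) (Vj μ κ0 (Br μ κ1 E r) n) =
      frm (μ.prod μ) (Dr μ κ1 E (2 * r)) fun w => kM μ κ0 n w.1 w.2 := by
  have hB := Br_bt (μ := μ) h1 hE hr
  have hk : BT fun w : X × X => kM μ κ0 n w.1 w.2 := kM_bm h0 hn
  have hA : Vj μ κ0 (Br μ κ1 E r) n = AK μ (kM μ κ0 n) (Br μ κ1 E r) := by
    unfold Vj
    rw [if_neg (by omega)]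
  unfold frm
  rw [hA, cfub (hB.mul (AK_bt (kM_bm h0 hn) hB).star).trace,
    cfub ((Dr_bt h1 hE (by omega)).mul hk.star).trace]
  congr 2
  funext x
  have e1 : ∀ z, trace (Br μ κ1 E r (x, z) * (AK μ (kM μ κ0 n) (Br μ κ1 E r) (x, z))ᴴ) =
      ∫ v, trace (Br μ κ1 E r (x, z) * (Br μ κ1 E r (v, z))ᴴ * kM μ κ0 n v x) ∂μ := by
    intro z
    have b1 : BT fun v => kM μ κ0 n x v * Br μ κ1 E r (v, z) :=
      (kM_l h0 hn x).mul (hB.comp (measurable_id.prodMk measurable_const))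
    unfold AK
    simp only
    rw [mint_star, ← mint_mul_left _ b1.star, mint_trace ((BT.const _).mul b1.star)]
    congr 1
    funext v
    rw [Matrix.conjTranspose_mul, kM_herm h0 s0 hn, ← Matrix.mul_assoc]
  have e2 : ∀ v, trace (Dr μ κ1 E (2 * r) (x, v) * (kM μ κ0 n x v)ᴴ) =
      ∫ z, trace (Br μ κ1 E r (x, z) * (Br μ κ1 E r (v, z))ᴴ * kM μ κ0 n v x) ∂μ := by
    intro v
    have b4 : BT fun z => Br μ κ1 E r (x, z) * (Br μ κ1 E r (v, z))ᴴ :=
      (hB.comp (measurable_const.prodMk measurable_id)).mul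
        (hB.comp (measurable_const.prodMk measurable_id)).star
    unfold Dr
    simp only
    rw [two_mul r, ← Br_Br h1 s1 hE hr hr, ← mint_mul_right _ b4,
      mint_trace (b4.mul (BT.const _)), kM_herm h0 s0 hn]
  simp only [e1, e2]
  refine cswp (f := fun z v => trace (Br μ κ1 E r (x, z) * (Br μ κ1 E r (v, z))ᴴ *
    kM μ κ0 n v x)) ?_
  exact (((hB.comp (measurable_const.prodMk measurable_fst)).mul
    (hB.comp (measurable_snd.prodMk measurable_fst)).star).mul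
      ((kM_r h0 hn x).comp measurable_snd)).trace

/-- **The bound for two arcs.** -/
theorem arcs_le (h0 : BT (Function.uncurry κ0)) (s0 : ∀ x y, (κ0 x y)ᴴ = κ0 y x)
    (h1 : BT (Function.uncurry κ1)) (s1 : ∀ x y, (κ1 x y)ᴴ = κ1 y x) (hE : BT E)
    (hP : ∀ x, (E x)ᴴ * E x = P) (hsc : ∀ n, 1 ≤ n → ∀ x y, ∃ c : ℂ, kM μ κ1 n x y = c • 1)
    {N0 : ℝ} (hN0 : 0 < N0) (hP1 : (trace P).re = N0) (hP2 : (trace (P * P)).re = N0 ^ 2)
    {Z : ℕ → ℝ} (hZ : ∀ r, 1 ≤ r → TrM μ κ1 (2 * r) = Fintype.card J * Z r)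
    (hJ : 0 < Fintype.card J) {a r r' m : ℕ} (ha : 1 ≤ a) (hr : 1 ≤ r) (hr' : 1 ≤ r')
    (hm : a ≤ m) {T : ℝ} (hT0 : 0 < T) (hT : TrM μ κ0 (4 * m) ≤ T)
    (hZr : 0 < Z r) (hZr' : 0 < Z r') (hZ2 : 0 < Z (2 * r)) :
    ‖∫ y, trace ((E y)ᴴ * mint μ fun u => kM μ κ0 a y u * (E u * kM μ κ1 (r + r') u y)) ∂μ‖ ≤
      Real.exp (1 / 2 * (Real.log (N0 * Z r') + (1 - a / m) * Real.log (N0 * Z r) +
        a / m * (Real.log N0 + 1 / 2 * Real.log (Z (2 * r)) + 1 / 2 * Real.log T))) := by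
  rw [arcs_eq h0 h1 s1 hE ha hr hr']
  have hB := Br_bt (μ := μ) h1 hE hr
  have hB' := Br_bt (μ := μ) h1 hE hr'
  have hc := cf_cs (μ := μ) (Vj_bt (μ := μ) h0 hB a) hB'
  have hJ' : (0 : ℝ) < Fintype.card J := by exact_mod_cast hJ
  obtain ⟨g, hg⟩ : ∃ g : ℕ → ℝ, g = fun j => frm (μ.prod μ) (Vj μ κ0 (Br μ κ1 E r) j)
    (Vj μ κ0 (Br μ κ1 E r) j) := ⟨_, rfl⟩
  have g0 : ∀ j, 0 ≤ g j := fun j => by
    rw [hg]
    exact frm_self_nonneg (Vj_bt h0 hB j)
  have glc : ∀ j, g (j + 1) ^ 2 ≤ g j * g (j + 2) := fun j => by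
    rw [hg]
    exact Vj_lc h0 s0 hB j
  have ga : frm (μ.prod μ) (Vj μ κ0 (Br μ κ1 E r) a) (Vj μ κ0 (Br μ κ1 E r) a) = g a := by
    rw [hg]
  rw [ga] at hc
  have e0 : g 0 = N0 * Z r := by
    have h2 := Br_sq (μ := μ) h1 s1 hE hP hsc hr
    rw [hP1, hZ r hr] at h2
    have h3 : g 0 = frm (μ.prod μ) (Br μ κ1 E r) (Br μ κ1 E r) := by
      rw [hg]
      simp [Vj]
    rw [h3]
    have h4 : (Fintype.card J : ℝ) * frm (μ.prod μ) (Br μ κ1 E r) (Br μ κ1 E r) =
        Fintype.card J * (N0 * Z r) := by rw [h2]; ring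
    exact mul_left_cancel₀ hJ'.ne' h4
  have e0' : frm (μ.prod μ) (Br μ κ1 E r') (Br μ κ1 E r') = N0 * Z r' := by
    have h2 := Br_sq (μ := μ) h1 s1 hE hP hsc hr'
    rw [hP1, hZ r' hr'] at h2
    have h4 : (Fintype.card J : ℝ) * frm (μ.prod μ) (Br μ κ1 E r') (Br μ κ1 E r') =
        Fintype.card J * (N0 * Z r') := by rw [h2]; ring
    exact mul_left_cancel₀ hJ'.ne' h4
  rw [e0'] at hc
  have em : g m ^ 2 ≤ (N0 ^ 2 * Z (2 * r)) * T := by
    have h2 : g m = frm (μ.prod μ) (Dr μ κ1 E (2 * r)) fun w => kM μ κ0 (2 * m) w.1 w.2 := by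
      rw [hg]
      simp only
      rw [Vj_frm h0 s0 hB, ← two_mul, Vj_Dr (μ := μ) h0 s0 h1 s1 hE (by omega) hr]
    have hk : BT fun w : X × X => kM μ κ0 (2 * m) w.1 w.2 := kM_bm h0 (by omega)
    have h3 := frm_cs (ν := μ.prod μ) (Dr_bt (μ := μ) h1 hE (r := 2 * r) (by omega)) hk
    rw [← TrM_add h0 s0 (m := 2 * m) (n := 2 * m) (by omega) (by omega)] at h3
    have h4 := Dr_sq (μ := μ) h1 s1 hE hP hsc (r := 2 * r) (by omega)
    rw [hP2, hZ (2 * r) (by omega)] at h4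
    have h5 : frm (μ.prod μ) (Dr μ κ1 E (2 * r)) (Dr μ κ1 E (2 * r)) = N0 ^ 2 * Z (2 * r) := by
      have h6 : (Fintype.card J : ℝ) * frm (μ.prod μ) (Dr μ κ1 E (2 * r)) (Dr μ κ1 E (2 * r)) =
        Fintype.card J * (N0 ^ 2 * Z (2 * r)) := by rw [h4]; ring
      exact mul_left_cancel₀ hJ'.ne' h6
    rw [h2]
    rw [h5, show 2 * m + 2 * m = 4 * m by ring] at h3
    exact h3.trans (mul_le_mul_of_nonneg_left hT (by positivity))
  rcases (norm_nonneg (cf μ (Vj μ κ0 (Br μ κ1 E r) a) (Br μ κ1 E r'))).lt_or_eq with hI | hI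
  swap
  · rw [← hI]
    exact (Real.exp_pos _).le
  have hga : 0 < g a := by
    rcases (g0 a).lt_or_eq with h2 | h2
    · exact h2
    · rw [← h2, zero_mul] at hc
      nlinarith [mul_pos hI hI]
  obtain ⟨p0, pm, hch⟩ := lchord g0 glc hm hga ha
  have hm0 : (0 : ℝ) < m := by
    have : 1 ≤ m := ha.trans hm
    exact_mod_cast this
  have l1 : 2 * Real.log (g m) ≤ 2 * Real.log N0 + Real.log (Z (2 * r)) + Real.log T := by
    have h2 := Real.log_le_log (by positivity) em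
    rw [Real.log_pow, Real.log_mul (by positivity) hT0.ne', Real.log_mul (by positivity) hZ2.ne',
      Real.log_pow] at h2
    push_cast at h2
    exact h2
  have l2 : 2 * Real.log ‖cf μ (Vj μ κ0 (Br μ κ1 E r) a) (Br μ κ1 E r')‖ ≤
      Real.log (g a) + Real.log (N0 * Z r') := by
    have h2 := Real.log_le_log (by positivity) hc
    rw [Real.log_pow, Real.log_mul hga.ne' (by positivity)] at h2
    push_cast at h2
    exact h2
  rw [← Real.log_le_iff_le_exp hI]
  rw [e0] at hch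
  have l3 : Real.log (g a) ≤ (1 - a / m) * Real.log (N0 * Z r) + a / m * Real.log (g m) := by
    have e1 : (1 - a / m) * Real.log (N0 * Z r) + a / m * Real.log (g m) =
        ((m - a) * Real.log (N0 * Z r) + a * Real.log (g m)) / m := by
      field_simp
    rw [e1, le_div_iff₀ hm0]
    linarith
  have hq : (0 : ℝ) ≤ a / m := by positivity
  have l4 := mul_le_mul_of_nonneg_left l1 hq
  nlinarith

end arcs

end

end Run7.h182.WL
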