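import Pool.Agent.Run7.h182.WL.Def
import Pool.Agent.Run7.h630.WL.Defs
import Pool.Agent.Run7.h4.YM.Sys
import Pool.Agent.Run7.h4.YM.Weyl2
import Pool.Agent.Run7.h4.YM.Frame
import Pool.Agent.Run7.h897.FS.Slice

/-!
# Translations of the Wilson loops
-/

set_option autoImplicit false
set_option linter.unusedSectionVars false
set_option linter.unusedVariables false

open MeasureTheory Matrix
open Run7.h4.YM
open Run7.h630.WL (SiteZ LinkZ dirZ per IsLimit side rect)

namespace Run7.h182.WL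

noncomputable section

variable {N n L l : ℕ}

/-- the position on the torus -/
def bar (n L : ℕ) (x : SiteZ l) : Site n L l := ((x.1 : ZMod n), (x.2.1 : ZMod L), x.2.2)

/-- translation of a configuration -/
def Sh (s : Site n L l) (U : Link n L l → SU N) : Link n L l → SU N := fun e => U (e.1, e.2 + s)

lemma dirZ0 (t : ℕ) : (t • dirZ 0 : SiteZ l) = ((t : ℤ), 0, 0, 0) := by
  simp [dirZ]

lemma dirZ1 (t : ℕ) : (t • dirZ 1 : SiteZ l) = (0, (t : ℤ), 0, 0) := by
  simp [dirZ]

lemma per_pt (U : Link n L l → SU N) (x : SiteZ l) (i : Fin 4) (t u : ℕ) :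
    per U (i, x + t • dirZ 0 + u • dirZ 1) =
      Sh (bar n L x) U (i, ((t : ZMod n), (u : ZMod L), 0, 0)) := by
  unfold per Sh bar
  rw [dirZ0, dirZ1]
  obtain ⟨x0, x1, x2, x3⟩ := x
  simp only [Prod.mk_add_mk, add_zero, zero_add, Int.cast_add, Int.cast_natCast]
  rw [add_comm (x0 : ZMod n), add_comm (x1 : ZMod L)]

lemma rect_per (U : Link n L l → SU N) (x : SiteZ l) (a b : ℕ) :
    rect (per U) x a b = loop a b (Sh (bar n L x) U) := by
  have h0 : side (per U) 0 x a = segT a (Sh (bar n L x) U) 0 := by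
    unfold side segT
    congr 1
    refine List.map_congr_left fun t _ => ?_
    have := per_pt U x 0 t 0
    rw [zero_nsmul, add_zero, Nat.cast_zero] at this
    exact this
  have h1 : side (per U) 1 (x + a • dirZ 0) b = segX b (Sh (bar n L x) U) (a : ZMod n) := by
    unfold side segX
    congr 1
    refine List.map_congr_left fun t _ => ?_
    exact per_pt U x 1 a t
  have h2 : side (per U) 0 (x + b • dirZ 1) a = segT a (Sh (bar n L x) U) (b : ZMod L) := by
    unfold side segT
    congr 1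
    refine List.map_congr_left fun t _ => ?_
    rw [add_right_comm]
    exact per_pt U x 0 t b
  have h3 : side (per U) 1 x b = segX b (Sh (bar n L x) U) 0 := by
    unfold side segX
    congr 1
    refine List.map_congr_left fun t _ => ?_
    have := per_pt U x 1 0 t
    rw [zero_nsmul, add_zero, Nat.cast_zero] at this
    exact this
  unfold rect loop
  rw [h0, h1, h2, h3]

/-! ### moving the twist -/

/-- the twist can be moved from `0` to `v` -/
def Mv (l : ℕ) (v : ZMod l × ZMod l) : Prop := ∃ A B : ZMod l × ZMod l → ℤ, ∀ w,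
  A w - A (w + (0, 1)) + B (w + (1, 0)) - B w = (if w = 0 then 1 else 0) - (if w = v then 1 else 0)

lemma Mv_zero : Mv l 0 := ⟨fun _ => 0, fun _ => 0, fun w => by simp⟩

lemma Mv_e2 {v : ZMod l × ZMod l} (h : Mv l v) : Mv l (v + (1, 0)) := by
  obtain ⟨A, B, h⟩ := h
  refine ⟨A, fun w => B w + if w = v + (1, 0) then 1 else 0, fun w => ?_⟩
  have h1 := h w
  have h2 : (w + (1, 0) = v + (1, 0)) ↔ w = v := add_left_inj _
  simp only [h2]
  linarith

lemma Mv_e3 {v : ZMod l × ZMod l} (h : Mv l v) : Mv l (v + (0, 1)) := by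
  obtain ⟨A, B, h⟩ := h
  refine ⟨fun w => A w - if w = v + (0, 1) then 1 else 0, B, fun w => ?_⟩
  have h1 := h w
  have h2 : (w + (0, 1) = v + (0, 1)) ↔ w = v := add_left_inj _
  simp only [h2]
  linarith

lemma Mv_all [NeZero l] (v : ZMod l × ZMod l) : Mv l v := by
  have h1 : ∀ i : ℕ, Mv l ((i : ZMod l), 0) := by
    intro i
    induction i with
    | zero => rw [Nat.cast_zero]; exact Mv_zero
    | succ i ih =>
      have := Mv_e2 ih
      rw [Prod.mk_add_mk, add_zero] at this
      push_cast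
      exact this
  have h2 : ∀ i j : ℕ, Mv l ((i : ZMod l), (j : ZMod l)) := by
    intro i j
    induction j with
    | zero => rw [Nat.cast_zero]; exact h1 i
    | succ j ih =>
      have := Mv_e3 ih
      rw [Prod.mk_add_mk, add_zero] at this
      push_cast
      exact this
  have h3 := h2 v.1.val v.2.val
  rw [ZMod.natCast_zmod_val, ZMod.natCast_zmod_val] at h3
  exact h3

/-- multiplication by central elements -/
def Ce (z : SU N) (A B : ZMod l × ZMod l → ℤ) (U : Link n L l → SU N) : Link n L l → SU N :=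
  fun e => (if e.1 = 2 then z ^ A e.2.2.2 else if e.1 = 3 then z ^ B e.2.2.2 else 1) * U e

lemma zc_comm {z : SU N} (hz : ∀ g, z * g = g * z) (i : ℤ) (g : SU N) : z ^ i * g = g * z ^ i :=
  (Commute.zpow_left (hz g) i : Commute (z ^ i) g)

lemma plaq_Sh (s : Site n L l) (U : Link n L l → SU N) (y : Site n L l) (i j : Fin 4) :
    plaq (Sh s U) y i j = plaq U (y + s) i j := by
  unfold plaq Sh
  simp only
  rw [add_right_comm y (dir i) s, add_right_comm y (dir j) s]

lemma grp4 {z : SU N} (hz : ∀ g, z * g = g * z) (i1 i2 i3 i4 : ℤ) (a b c d : SU N) :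
    (z ^ i1 * a) * (z ^ i2 * b) * (z ^ i3 * c)⁻¹ * (z ^ i4 * d)⁻¹ =
      z ^ (i1 + i2 - i3 - i4) * (a * b * c⁻¹ * d⁻¹) := by
  have h1 : (z ^ i3 * c)⁻¹ = z ^ (-i3) * c⁻¹ := by
    rw [_root_.mul_inv_rev, _root_.zpow_neg, ← _root_.zpow_neg, zc_comm hz]
  have h2 : (z ^ i4 * d)⁻¹ = z ^ (-i4) * d⁻¹ := by
    rw [_root_.mul_inv_rev, _root_.zpow_neg, ← _root_.zpow_neg, zc_comm hz]
  rw [h1, h2]
  have e1 : z ^ i1 * a * (z ^ i2 * b) = z ^ (i1 + i2) * (a * b) := by
    rw [_root_.zpow_add]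
    calc z ^ i1 * a * (z ^ i2 * b) = z ^ i1 * (a * z ^ i2) * b := by simp only [mul_assoc]
      _ = z ^ i1 * (z ^ i2 * a) * b := by rw [zc_comm hz i2 a]
      _ = _ := by simp only [mul_assoc]
  have e2 : z ^ (i1 + i2) * (a * b) * (z ^ (-i3) * c⁻¹) = z ^ (i1 + i2 - i3) * (a * b * c⁻¹) := by
    rw [sub_eq_add_neg (i1 + i2), _root_.zpow_add z (i1 + i2)]
    calc z ^ (i1 + i2) * (a * b) * (z ^ (-i3) * c⁻¹)
        = z ^ (i1 + i2) * ((a * b) * z ^ (-i3)) * c⁻¹ := by simp only [mul_assoc]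
      _ = z ^ (i1 + i2) * (z ^ (-i3) * (a * b)) * c⁻¹ := by rw [zc_comm hz (-i3) (a * b)]
      _ = _ := by simp only [mul_assoc]
  have e3 : z ^ (i1 + i2 - i3) * (a * b * c⁻¹) * (z ^ (-i4) * d⁻¹) =
      z ^ (i1 + i2 - i3 - i4) * (a * b * c⁻¹ * d⁻¹) := by
    rw [sub_eq_add_neg (i1 + i2 - i3), _root_.zpow_add z (i1 + i2 - i3)]
    calc z ^ (i1 + i2 - i3) * (a * b * c⁻¹) * (z ^ (-i4) * d⁻¹)
        = z ^ (i1 + i2 - i3) * ((a * b * c⁻¹) * z ^ (-i4)) * d⁻¹ := by simp only [mul_assoc]
      _ = z ^ (i1 + i2 - i3) * (z ^ (-i4) * (a * b * c⁻¹)) * d⁻¹ := by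
          rw [zc_comm hz (-i4) (a * b * c⁻¹)]
      _ = _ := by simp only [mul_assoc]
  rw [e1, e2, e3]

/-- the exponent of the centre element on a link -/
def ex (A B : ZMod l × ZMod l → ℤ) (i : Fin 4) (y : Site n L l) : ℤ :=
  if i = 2 then A y.2.2 else if i = 3 then B y.2.2 else 0

lemma Ce_ex (z : SU N) (A B : ZMod l × ZMod l → ℤ) (U : Link n L l → SU N) (i : Fin 4)
    (y : Site n L l) : Ce z A B U (i, y) = z ^ ex A B i y * U (i, y) := by
  unfold Ce ex
  simp only
  split_ifs <;> simp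

lemma plaq_Ce {z : SU N} (hz : ∀ g, z * g = g * z) (A B : ZMod l × ZMod l → ℤ)
    (U : Link n L l → SU N) (y : Site n L l) (i j : Fin 4) (hij : i < j) :
    plaq (Ce z A B U) y i j =
      z ^ (if i = 2 ∧ j = 3 then A y.2.2 - A (y.2.2 + (0, 1)) + B (y.2.2 + (1, 0)) - B y.2.2
        else 0) * plaq U y i j := by
  unfold plaq
  rw [Ce_ex, Ce_ex, Ce_ex, Ce_ex, grp4 hz]
  congr 2
  unfold ex dir
  obtain ⟨y0, y1, y2, y3⟩ := y
  fin_cases i <;> fin_cases j <;> simp at hij ⊢
  ring

/-- the Wilson action after a translation and the corresponding centre transformation -/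
lemma action_Phi [NeZero n] [NeZero L] [NeZero l] {k : ℕ} {z : SU N}
    (hz1 : z.1 = Complex.exp (2 * Real.pi * Complex.I * (k / N)) •
      (1 : Matrix (Fin N) (Fin N) ℂ)) (hz : ∀ g, z * g = g * z) (s : Site n L l)
    {A B : ZMod l × ZMod l → ℤ} (hAB : ∀ w, A w - A (w + (0, 1)) + B (w + (1, 0)) - B w =
      (if w = 0 then 1 else 0) - (if w = -s.2.2 then 1 else 0)) (U : Link n L l → SU N) :
    action k (Ce z (fun w => -A w) (fun w => -B w) (Sh s U)) = action k U := by
  unfold action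
  rw [← Equiv.sum_comp (Equiv.addRight s) fun x : Site n L l => ∑ i : Fin 4,
    ∑ j ∈ Finset.Ioi i, ((N : ℝ) - (twist N k x i j * Matrix.trace (plaq U x i j).1).re)]
  refine Finset.sum_congr rfl fun y _ => Finset.sum_congr rfl fun i _ =>
    Finset.sum_congr rfl fun j hj => ?_
  have hij : i < j := Finset.mem_Ioi.1 hj
  rw [plaq_Ce hz _ _ _ _ _ _ hij, plaq_Sh, Equiv.coe_addRight]
  obtain ⟨g, hg⟩ : ∃ g, g = plaq U (y + s) i j := ⟨_, rfl⟩
  rw [← hg]
  by_cases h23 : i = 2 ∧ j = 3
  · rw [if_pos h23]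
    have e1 : -A y.2.2 - -A (y.2.2 + (0, 1)) + -B (y.2.2 + (1, 0)) - -B y.2.2 =
        (if y.2.2 = -s.2.2 then 1 else 0) - (if y.2.2 = 0 then 1 else 0) := by
      have := hAB y.2.2
      linarith
    rw [e1]
    have e2 : (y + s).2.2 = y.2.2 + s.2.2 := rfl
    have e3 : (y.2.2 + s.2.2 = 0) ↔ y.2.2 = -s.2.2 := add_eq_zero_iff_eq_neg
    have tz : ∀ g : SU N, trace (z * g).1 =
        Complex.exp (2 * Real.pi * Complex.I * (k / N)) * trace g.1 := by
      intro g
      have : (z * g).1 = z.1 * g.1 := rfl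
      rw [this, hz1, Matrix.smul_mul, Matrix.one_mul, Matrix.trace_smul, smul_eq_mul]
    have tz' : ∀ g : SU N, Complex.exp (2 * Real.pi * Complex.I * (k / N)) *
        trace (z⁻¹ * g).1 = trace g.1 := by
      intro g
      rw [← tz, mul_inv_cancel_left]
    unfold twist
    rw [e2]
    simp only [h23.1, h23.2, true_and, e3]
    by_cases h0 : y.2.2 = 0
    · by_cases hs : y.2.2 = -s.2.2
      · rw [if_pos hs, if_pos hs, if_pos h0, if_pos h0, sub_self, zpow_zero]
        simp only [one_mul]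
      · rw [if_neg hs, if_neg hs, if_pos h0, if_pos h0, zero_sub, _root_.zpow_neg, zpow_one, tz']
        simp only [one_mul]
    · by_cases hs : y.2.2 = -s.2.2
      · rw [if_pos hs, if_pos hs, if_neg h0, if_neg h0, sub_zero, zpow_one, tz]
        simp only [one_mul]
      · rw [if_neg hs, if_neg hs, if_neg h0, if_neg h0, sub_zero, zpow_zero]
        simp only [one_mul]
  · rw [if_neg h23, zpow_zero, one_mul]
    unfold twist
    rw [if_neg fun h => h23 ⟨h.1, h.2.1⟩, if_neg fun h => h23 ⟨h.1, h.2.1⟩]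

lemma loop_Ce (z : SU N) (A B : ZMod l × ZMod l → ℤ) (U : Link n L l → SU N) (a b : ℕ) :
    loop a b (Ce z A B U) = loop a b U := by
  have h0 : ∀ y : Site n L l, Ce z A B U (0, y) = U (0, y) := fun y => by
    rw [Ce_ex]
    simp [ex]
  have h1 : ∀ y : Site n L l, Ce z A B U (1, y) = U (1, y) := fun y => by
    rw [Ce_ex]
    simp [ex]
  unfold loop segT segX
  simp only [h0, h1]

section meas

variable [NeZero N] [NeZero n] [NeZero L] [NeZero l] [MeasurableSpace (SU N)]
  [BorelSpace (SU N)]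

/-- the integrals are invariant -/
theorem int_Sh (μ : Measure (SU N)) [IsProbabilityMeasure μ] [μ.IsHaarMeasure] (k : ℕ)
    (hk : Nat.Coprime k N) (β : ℝ) (s : Site n L l) (a b : ℕ) (f : SU N → ℝ)
    (hf : Continuous f) :
    ∫ U : Link n L l → SU N, f (loop a b (Sh s U)) * Real.exp (-(β * action k U))
      ∂(Measure.pi fun _ => μ) =
    ∫ U : Link n L l → SU N, f (loop a b U) * Real.exp (-(β * action k U))
      ∂(Measure.pi fun _ => μ) := by
  have hζ := om_prim (N := N) hk
  obtain ⟨z, hz⟩ : ∃ z, z = cz hζ 1 := ⟨_, rfl⟩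
  have hz1 : z.1 = Complex.exp (2 * Real.pi * Complex.I * (k / N)) •
      (1 : Matrix (Fin N) (Fin N) ℂ) := by
    rw [hz, cz_val, pow_one]
    rfl
  have hzc : ∀ g, z * g = g * z := fun g => by rw [hz]; exact cz_comm hζ 1 g
  obtain ⟨A, B, hAB⟩ := Mv_all (l := l) (-s.2.2)
  obtain ⟨c, hc⟩ : ∃ c : Link n L l → SU N, c = fun e =>
    z ^ ex (fun w => -A w) (fun w => -B w) e.1 e.2 := ⟨_, rfl⟩
  have m1 : MeasurePreserving (fun U : Link n L l → SU N => fun e : Link n L l =>
      U (e.1, e.2 + s)) (Measure.pi fun _ => μ) (Measure.pi fun _ => μ) :=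
    Pool.Agent.Run7.h897.FS.mp_comp (μ := μ)
      ((Equiv.refl (Fin 4)).prodCongr (Equiv.addRight s))
  have m2 : MeasurePreserving (fun U : Link n L l → SU N => fun e => c e * U e)
      (Measure.pi fun _ => μ) (Measure.pi fun _ => μ) :=
    measurePreserving_pi (fun _ => μ) (fun _ => μ) (f := fun e g => c e * g)
      fun e => measurePreserving_mul_left μ (c e)
  have m3 := m2.comp m1
  have hP : ∀ U : Link n L l → SU N, ((fun U : Link n L l → SU N => fun e => c e * U e) ∘
      fun U : Link n L l → SU N => fun e : Link n L l => U (e.1, e.2 + s)) U =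
      Ce z (fun w => -A w) (fun w => -B w) (Sh s U) := by
    intro U
    funext e
    obtain ⟨i, y⟩ := e
    rw [Ce_ex, hc]
    rfl
  have hcl : Continuous fun U : Link n L l → SU N => loop a b U := by
    unfold loop segT segX
    have c1 : ∀ (f : ℕ → Link n L l) (m : ℕ), Continuous fun U : Link n L l → SU N =>
        ((List.range m).map fun t => U (f t)).prod := fun f m =>
      continuous_list_prod _ fun t _ => continuous_apply _
    exact (((c1 (fun t => (0, ((t : ZMod n), 0, 0, 0))) a).mul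
      (c1 (fun u => (1, ((a : ZMod n), (u : ZMod L), 0, 0))) b)).mul
      (c1 (fun t => (0, ((t : ZMod n), (b : ZMod L), 0, 0))) a).inv).mul
      (c1 (fun u => (1, (0, (u : ZMod L), 0, 0))) b).inv
  have hg : Continuous fun U : Link n L l → SU N =>
      f (loop a b U) * Real.exp (-(β * action k U)) :=
    (hf.comp hcl).mul (Real.continuous_exp.comp ((cont_action k).const_mul β).neg)
  have h1 : ∫ U : Link n L l → SU N, f (loop a b U) * Real.exp (-(β * action k U))
      ∂(Measure.pi fun _ => μ) = ∫ U : Link n L l → SU N,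
      f (loop a b (Ce z (fun w => -A w) (fun w => -B w) (Sh s U))) *
        Real.exp (-(β * action k (Ce z (fun w => -A w) (fun w => -B w) (Sh s U))))
      ∂(Measure.pi fun _ => μ) := by
    rw [← m3.map_eq, integral_map m3.measurable.aemeasurable hg.aestronglyMeasurable]
    simp only [hP]
    rw [m3.map_eq]
  rw [h1]
  congr 1
  funext U
  rw [loop_Ce, action_Phi hz1 hzc s hAB]

end meas

end

end Run7.h182.WL
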