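import Pool.Agent.Run7.h182.WL.W1
import Pool.Agent.Run7.h182.WL.Trans

/-!
# W4: the area law in the thermodynamic limit, from the rates of the Polyakov loops
-/

set_option autoImplicit false
set_option linter.unusedSectionVars false
set_option linter.unusedVariables false

open MeasureTheory Matrix Filter Topology
open Pool.Agent.Run7.h897.FS
open Run7.h4.YM
open Run7.h630.WL (SiteZ LinkZ dirZ per IsLimit side rect)

namespace Run7.h182.WL

open Run7.h182.PC

noncomputable section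

/-! ### ratios -/

lemma ratio_lim {z : ℕ → ℝ} (hz : ∀ q, 0 < z q) {e : ℝ}
    (h : Tendsto (fun q => z (q + 1) / z q) atTop (𝓝 (Real.exp e))) (j : ℕ) :
    Tendsto (fun q => z q / z (q + j)) atTop (𝓝 (Real.exp (-(j * e)))) := by
  induction j with
  | zero =>
    have : ∀ q, z q / z (q + 0) = 1 := fun q => div_self (hz q).ne'
    simp only [this]
    simp
  | succ j ih =>
    have h1 : Tendsto (fun q => z (q + j) / z (q + j + 1)) atTop (𝓝 (Real.exp e)⁻¹) := by
      have h2 := (h.comp (tendsto_add_atTop_nat j)).inv₀ (Real.exp_pos e).ne'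
      refine h2.congr fun q => ?_
      simp only [Function.comp]
      rw [inv_div]
    have h3 := ih.mul h1
    have e1 : Real.exp (-(j * e)) * (Real.exp e)⁻¹ = Real.exp (-((j + 1 : ℕ) * e)) := by
      rw [← Real.exp_neg, ← Real.exp_add]
      congr 1
      push_cast
      ring
    rw [e1] at h3
    refine h3.congr fun q => ?_
    have h4 := (hz (q + j)).ne'
    rw [show q + (j + 1) = q + j + 1 from rfl]
    field_simp

lemma sqrt_lim {z : ℕ → ℝ} (hz : ∀ q, 0 < z q) {e : ℝ}
    (h : Tendsto (fun q => z (q + 1) / z q) atTop (𝓝 (Real.exp e))) (u w : ℕ) :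
    Tendsto (fun q => Real.sqrt (z (q + w) * z q) / z (q + w + u)) atTop
      (𝓝 (Real.exp (-((u + (w + u) : ℕ) * e / 2)))) := by
  have h1 := (ratio_lim hz h u).comp (tendsto_add_atTop_nat w)
  have h2 := ratio_lim hz h (w + u)
  have h3 := ((h1.mul h2).sqrt)
  have e1 : Real.sqrt (Real.exp (-(u * e)) * Real.exp (-((w + u : ℕ) * e))) =
      Real.exp (-((u + (w + u) : ℕ) * e / 2)) := by
    rw [← Real.exp_add, Real.sqrt_eq_rpow, ← Real.exp_mul]
    congr 1
    push_cast
    ring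
  rw [e1] at h3
  refine h3.congr fun q => ?_
  simp only [Function.comp]
  have h4 := hz (q + w + u)
  have e2 : q + (w + u) = q + w + u := by ring
  rw [e2, div_mul_div_comm, Real.sqrt_div' _ (by positivity), Real.sqrt_mul_self h4.le]

variable {N l d : ℕ} [NeZero N] [NeZero l] [NeZero d]
  {ρ : SU N →* unitaryGroup (Fin d) ℂ} [MeasurableSpace (SU N)] [BorelSpace (SU N)]
  (μ : Measure (SU N)) [IsProbabilityMeasure μ]

lemma Wn_rate [μ.IsHaarMeasure] {L : ℕ} [NeZero L] (hρ : Continuous ρ) (k : ℕ) (β : ℝ)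
    {a r r' : ℕ} (ha : 1 ≤ a) [NeZero (2 * r)] [NeZero (2 * r')] (n : ℕ) [NeZero n]
    (hn : n = a + (r + r')) (b : ℕ) {C E : ℝ}
    (h : ∀ (n : ℕ) [NeZero (2 * n)], Fr ρ (2 * n) L l μ k β b ≤ C * Real.exp (n * E)) :
    ‖Wn ρ n L l μ k β a b‖ ≤
      Real.sqrt (Zn (2 * r) L l μ k β * Zn (2 * r') L l μ k β) * Real.exp (a * E / 2) := by
  subst hn
  exact tW1 N l k L d μ β ρ hρ a b r r' C E ha h

/-- the trace of the loop -/
def tl (ρ : SU N →* unitaryGroup (Fin d) ℂ) (x : SiteZ l) (a b : ℕ) (V : LinkZ l → SU N) : ℂ :=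
  trace (ρ (rect V x a b)).1

omit [NeZero N] [NeZero l] [NeZero d] [MeasurableSpace (SU N)] [BorelSpace (SU N)] in
lemma rect_cont (x : SiteZ l) (a b : ℕ) :
    Continuous fun V : LinkZ l → SU N => rect V x a b := by
  unfold rect side
  have c1 : ∀ (f : ℕ → LinkZ l) (m : ℕ), Continuous fun V : LinkZ l → SU N =>
      ((List.range m).map fun t => V (f t)).prod := fun f m =>
    continuous_list_prod _ fun t _ => continuous_apply _
  exact (((c1 (fun t => (0, x + t • dirZ 0)) a).mul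
    (c1 (fun u => (1, x + a • dirZ 0 + u • dirZ 1)) b)).mul
    (c1 (fun t => (0, x + b • dirZ 1 + t • dirZ 0)) a).inv).mul
    (c1 (fun u => (1, x + u • dirZ 1)) b).inv

omit [NeZero N] [NeZero l] [NeZero d] [MeasurableSpace (SU N)] [BorelSpace (SU N)] in
lemma tr_rho_cont (hρ : Continuous ρ) : Continuous fun g : SU N => trace (ρ g).1 :=
  Continuous.matrix_trace (continuous_subtype_val.comp hρ)

omit [NeZero N] [NeZero l] [NeZero d] [MeasurableSpace (SU N)] [BorelSpace (SU N)] in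
lemma tl_cont (hρ : Continuous ρ) (x : SiteZ l) (a b : ℕ) : Continuous (tl ρ x a b) :=
  (tr_rho_cont hρ).comp (rect_cont x a b)

omit [NeZero N] [NeZero l] [NeZero d] [MeasurableSpace (SU N)] [BorelSpace (SU N)] in
lemma loop_cont {n L : ℕ} (a b : ℕ) : Continuous fun U : Link n L l → SU N => loop a b U := by
  unfold loop segT segX
  have c1 : ∀ (f : ℕ → Link n L l) (m : ℕ), Continuous fun U : Link n L l → SU N =>
      ((List.range m).map fun t => U (f t)).prod := fun f m =>
    continuous_list_prod _ fun t _ => continuous_apply _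
  exact (((c1 (fun t => (0, ((t : ZMod n), 0, 0, 0))) a).mul
    (c1 (fun u => (1, ((a : ZMod n), (u : ZMod L), 0, 0))) b)).mul
    (c1 (fun t => (0, ((t : ZMod n), (b : ZMod L), 0, 0))) a).inv).mul
    (c1 (fun u => (1, (0, (u : ZMod L), 0, 0))) b).inv

/-- the expectation in a finite volume -/
lemma expect_tl [μ.IsHaarMeasure] {k : ℕ} (hk : Nat.Coprime k N) (hρ : Continuous ρ) (β : ℝ)
    (n L : ℕ) [NeZero n] [NeZero L] (x : SiteZ l) (a b : ℕ) (θ : ℂ) :
    expect μ k β (fun U : Link n L l → SU N => (θ * tl ρ x a b (per U)).re) =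
      (θ * (d * Wn ρ n L l μ k β a b)).re / Zn n L l μ k β := by
  have hf : Continuous fun g : SU N => (θ * trace (ρ g).1).re :=
    Complex.continuous_re.comp ((tr_rho_cont hρ).const_mul θ)
  have h1 := int_Sh (n := n) (L := L) (l := l) μ k hk β (bar n L x) a b
    (fun g => (θ * trace (ρ g).1).re) hf
  unfold expect
  have h2 : ∀ U : Link n L l → SU N, tl ρ x a b (per U) =
      trace (ρ (loop a b (Sh (bar n L x) U))).1 := fun U => by
    unfold tl
    rw [rect_per]
  simp only [h2]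
  rw [h1]
  have hd : (d : ℂ) ≠ 0 := by exact_mod_cast NeZero.ne d
  have hbc : BC fun U : Link n L l → SU N => θ * (trace (ρ (loop a b U)).1 *
      ((Real.exp (-(β * action k U)) : ℝ) : ℂ)) :=
    BC_cont (continuous_const.mul (((tr_rho_cont hρ).comp (loop_cont a b)).mul
      (Complex.continuous_ofReal.comp
        (Real.continuous_exp.comp ((cont_action k).const_mul β).neg))))
  have h3 : θ * (d * Wn ρ n L l μ k β a b) = ∫ U : Link n L l → SU N,
      θ * (trace (ρ (loop a b U)).1 * ((Real.exp (-(β * action k U)) : ℝ) : ℂ))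
        ∂(Measure.pi fun _ => μ) := by
    unfold Wn wilson
    rw [← integral_const_mul, ← integral_const_mul]
    congr 1
    funext U
    field_simp
  rw [h3, re_int hbc]
  unfold Zn
  congr 2
  funext U
  rw [← mul_assoc, Complex.re_mul_ofReal]

/-- **The area law from the rates.** -/
theorem core [μ.IsHaarMeasure] {k : ℕ} (hk : Nat.Coprime k N) {β : ℝ}
    {ν : Measure (LinkZ l → SU N)} (hν : IsLimit k μ β ν) (hρ : Continuous ρ) (x : SiteZ l)
    {a b : ℕ} (ha : 1 ≤ a) {s : ℝ}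
    (h : ∀ δ : ℝ, 0 < δ → ∃ M0 : ℕ, ∀ m' : ℕ, M0 ≤ m' → ∃ Ev C : ℝ,
      Tendsto (fun q : ℕ => Zn (2 * (q + 1 + 1)) (2 * (m' + 1)) l μ k β /
        Zn (2 * (q + 1)) (2 * (m' + 1)) l μ k β) atTop (𝓝 (Real.exp Ev)) ∧
      ∀ q : ℕ, Fr ρ (2 * (q + 1)) (2 * (m' + 1)) l μ k β b ≤
        C * Real.exp ((q + 1 : ℕ) * (Ev - 2 * s + δ))) :
    ‖∫ V, trace (ρ (rect V x a b)).1 ∂ν‖ ≤ d * Real.exp (-(a * s)) := by
  haveI := hν.prob
  have hd : (0 : ℝ) < d := by exact_mod_cast NeZero.pos d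
  obtain ⟨c, hc⟩ : ∃ c : ℂ, c = ∫ V, tl ρ x a b V ∂ν := ⟨_, rfl⟩
  change ‖∫ V, tl ρ x a b V ∂ν‖ ≤ _
  rw [← hc]
  -- the phase
  obtain ⟨θ, hθ1, hθ2⟩ : ∃ θ : ℂ, ‖θ‖ ≤ 1 ∧ (θ * c).re = ‖c‖ := by
    rcases eq_or_ne c 0 with h0 | h0
    · exact ⟨1, by simp, by simp [h0]⟩
    · refine ⟨starRingEnd ℂ c / ‖c‖, ?_, ?_⟩
      · rw [norm_div, Complex.norm_conj, Complex.norm_real, norm_norm, div_self]
        exact norm_ne_zero_iff.2 h0
      · have hn : (‖c‖ : ℂ) ≠ 0 := by
          rw [Ne, Complex.ofReal_eq_zero, norm_eq_zero]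
          exact h0
        have : starRingEnd ℂ c / ‖c‖ * c = ((‖c‖ : ℝ) : ℂ) := by
          rw [div_mul_eq_mul_div, mul_comm, Complex.mul_conj, Complex.normSq_eq_norm_sq]
          push_cast
          field_simp
        rw [this, Complex.ofReal_re]
  have hFc : Continuous fun V : LinkZ l → SU N => (θ * tl ρ x a b V).re :=
    Complex.continuous_re.comp ((tl_cont hρ x a b).const_mul θ)
  have hbc : BC fun V : LinkZ l → SU N => θ * tl ρ x a b V :=
    BC_cont ((tl_cont hρ x a b).const_mul θ)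
  have hlim := hν.lim _ hFc
  have e1 : ∫ V, (θ * tl ρ x a b V).re ∂ν = ‖c‖ := by
    rw [← re_int hbc, integral_const_mul, ← hc, hθ2]
  rw [e1] at hlim
  -- reduction to positive errors
  have key : ∀ δ : ℝ, 0 < δ → ‖c‖ ≤ d * Real.exp (-(a * s) + a * δ / 2) := by
    intro δ hδ
    obtain ⟨M0, hM0⟩ := h δ hδ
    by_contra hcon
    push Not at hcon
    obtain ⟨y, hy1, hy2⟩ := exists_between hcon
    have hev := hlim.eventually (lt_mem_nhds hy2)
    obtain ⟨⟨p0, q0⟩, hpq⟩ := eventually_atTop.1 hev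
    obtain ⟨m', hm'⟩ : ∃ m', m' = max q0 M0 := ⟨_, rfl⟩
    obtain ⟨Ev, C, hz, hF⟩ := hM0 m' (hm' ▸ le_max_right _ _)
    obtain ⟨z, hzd⟩ : ∃ z : ℕ → ℝ, z = fun q => Zn (2 * (q + 1)) (2 * (m' + 1)) l μ k β :=
      ⟨_, rfl⟩
    have hzpos : ∀ q, 0 < z q := fun q => by
      rw [hzd]
      exact Zn_pos μ _ k β
    have hz' : Tendsto (fun q => z (q + 1) / z q) atTop (𝓝 (Real.exp Ev)) := by
      rw [hzd]
      exact hz
    obtain ⟨u, hu⟩ : ∃ u, u = a / 2 := ⟨_, rfl⟩
    obtain ⟨w, hw⟩ : ∃ w, w = a - 2 * u := ⟨_, rfl⟩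
    have hauw : u + (w + u) = a := by omega
    have hsl := sqrt_lim hzpos hz' u w
    rw [hauw] at hsl
    have hbd : ∀ q : ℕ, p0 ≤ q → y ≤ d * (Real.sqrt (z (q + w) * z q) / z (q + w + u)) *
        Real.exp (a * (Ev - 2 * s + δ) / 2) := by
      intro q hq
      have h1 := hpq (q + w + u, m') (by
        constructor
        · simp only
          omega
        · simp only
          rw [hm']
          exact le_max_left _ _)
      simp only at h1
      rw [expect_tl μ hk hρ β] at h1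
      haveI : NeZero (2 * (q + w + 1)) := ⟨by omega⟩
      haveI : NeZero (2 * (q + 1)) := ⟨by omega⟩
      have h2 := Wn_rate (L := 2 * (m' + 1)) (l := l) μ hρ k β ha (r := q + w + 1) (r' := q + 1)
        (2 * (q + w + u + 1)) (by omega) b (C := C) (E := Ev - 2 * s + δ) (by
          intro n hn
          obtain ⟨i, rfl⟩ : ∃ i, n = i + 1 := ⟨n - 1, by
            have := hn.out
            omega⟩
          exact hF i)
      have h3 : (θ * (d * Wn ρ (2 * (q + w + u + 1)) (2 * (m' + 1)) l μ k β a b)).re ≤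
          d * (Real.sqrt (z (q + w) * z q) * Real.exp (a * (Ev - 2 * s + δ) / 2)) := by
        refine (Complex.re_le_norm _).trans ?_
        rw [norm_mul, norm_mul, Complex.norm_natCast]
        have h4 : ‖Wn ρ (2 * (q + w + u + 1)) (2 * (m' + 1)) l μ k β a b‖ ≤
            Real.sqrt (z (q + w) * z q) * Real.exp (a * (Ev - 2 * s + δ) / 2) := by
          rw [hzd]
          exact h2
        have h5 : ‖θ‖ * (d * ‖Wn ρ (2 * (q + w + u + 1)) (2 * (m' + 1)) l μ k β a b‖) ≤
            1 * (d * (Real.sqrt (z (q + w) * z q) * Real.exp (a * (Ev - 2 * s + δ) / 2))) := by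
          gcongr
        rwa [one_mul] at h5
      have hzz : Zn (2 * (q + w + u + 1)) (2 * (m' + 1)) l μ k β = z (q + w + u) := by
        rw [hzd]
      rw [hzz] at h1
      refine h1.le.trans ((div_le_div_of_nonneg_right h3 (hzpos _).le).trans (le_of_eq ?_))
      have := (hzpos (q + w + u)).ne'
      field_simp
    have hfin : Tendsto (fun q : ℕ => d * (Real.sqrt (z (q + w) * z q) / z (q + w + u)) *
        Real.exp (a * (Ev - 2 * s + δ) / 2)) atTop (𝓝 (d * Real.exp (-(a * Ev / 2)) *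
        Real.exp (a * (Ev - 2 * s + δ) / 2))) := (hsl.const_mul _).mul_const _
    have h6 := ge_of_tendsto hfin ((eventually_ge_atTop p0).mono fun q hq => hbd q hq)
    rw [mul_assoc, ← Real.exp_add] at h6
    have e3 : -(a * Ev / 2) + a * (Ev - 2 * s + δ) / 2 = -(a * s) + a * δ / 2 := by ring
    rw [e3] at h6
    exact absurd hy1 (not_lt.2 h6)
  have hlim2 : Tendsto (fun i : ℕ => (d : ℝ) * Real.exp (-(a * s) + a * (1 / ((i : ℝ) + 1)) / 2))
      atTop (𝓝 (d * Real.exp (-(a * s) + a * 0 / 2))) := by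
    refine Tendsto.const_mul _ ((Real.continuous_exp.tendsto _).comp (Tendsto.const_add _
      (Tendsto.div_const (Tendsto.const_mul _ ?_) _)))
    exact tendsto_one_div_add_atTop_nhds_zero_nat
  have h7 := ge_of_tendsto' hlim2 fun i => key (1 / ((i : ℝ) + 1)) (by positivity)
  rw [mul_zero, zero_div, add_zero] at h7
  exact h7

end

end Run7.h182.WL
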