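import Pool.Agent.Run7.h182.WL.Ring

/-!
# The Wilson loop in terms of the transfer kernels
-/

set_option autoImplicit false
set_option linter.unusedSectionVars false
set_option linter.unusedVariables false

open MeasureTheory Matrix
open scoped ComplexConjugate Kronecker
open Pool.Agent.Run7.h897.FS
open Run7.h4.YM

namespace Run7.h182.WL

open Run7.h182.PC

noncomputable section

section hp

variable {N : ℕ}

lemma hp_kron (A B : ℕ → Matrix (Fin N) (Fin N) ℂ) (n : ℕ) :
    hp (fun t => A t ⊗ₖ B t) n = hp A n ⊗ₖ hp B n := by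
  induction n with
  | zero => simp
  | succ n ih => rw [hp_succ, hp_succ, hp_succ, ih, Matrix.mul_kronecker_mul]

lemma hp_conjm (A : ℕ → Matrix (Fin N) (Fin N) ℂ) (n : ℕ) :
    hp (fun t => (A t).map (starRingEnd ℂ)) n = (hp A n).map (starRingEnd ℂ) := by
  induction n with
  | zero => simp
  | succ n ih => rw [hp_succ, hp_succ, ih, Matrix.map_mul]

lemma hp_coe (g : ℕ → SU N) (n : ℕ) : hp (fun t => (g t).1) n = (hp g n).1 := by
  induction n with
  | zero => simp
  | succ n ih => rw [hp_succ, hp_succ, ih]; rfl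

lemma hp_head {M : Type*} [Monoid M] {f g : ℕ → M} {d : M} {n : ℕ} (hn : 1 ≤ n)
    (h0 : f 0 = d * g 0) (h : ∀ i, 1 ≤ i → i < n → f i = g i) : hp f n = d * hp g n := by
  induction n, hn using Nat.le_induction with
  | base => rw [hp_succ, hp_succ, hp_zero, hp_zero, one_mul, one_mul, h0]
  | succ n hn ih =>
    rw [hp_succ, hp_succ, ih fun i h1 h2 => h i h1 (by omega), h n hn (by omega), mul_assoc]

lemma hp_one {M : Type*} [Monoid M] (n : ℕ) : hp (fun _ => (1 : M)) n = 1 := by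
  induction n with
  | zero => rfl
  | succ n ih => rw [hp_succ, ih, one_mul]

end hp

variable {N L l : ℕ} [NeZero N] [NeZero L] [NeZero l]

/-- the index set -/
abbrev JJ (N : ℕ) := Fin N × Fin N

/-- the line in direction `1` in a slice -/
def sS (b : ℕ) (x : Fin 3 × Sp L l → SU N) : SU N := hp (fun t : ℕ => x (0, ((t : ZMod L), 0))) b

/-- the vector of the line, as a matrix with one column -/
def Ev (b : ℕ) (x : Fin 3 × Sp L l → SU N) : Matrix (JJ N) (JJ N) ℂ :=
  Matrix.of fun p q => if q = 0 then (sS b x).1 p.1 p.2 else 0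

lemma quad0 (P Q S S' : Matrix (Fin N) (Fin N) ℂ) :
    ∑ p : JJ N, conj (S p.1 p.2) * ∑ q : JJ N, (P ⊗ₖ (Q.map (starRingEnd ℂ))) p q * S' q.1 q.2 =
      trace (P * S' * Qᴴ * Sᴴ) := by
  simp only [Matrix.trace, Matrix.diag, Fintype.sum_prod_type]
  refine Finset.sum_congr rfl fun i _ => ?_
  rw [Matrix.mul_apply]
  refine Finset.sum_congr rfl fun l _ => ?_
  rw [Matrix.conjTranspose_apply, RCLike.star_def, mul_comm (conj (S i l))]
  congr 1
  rw [Matrix.mul_apply]
  rw [Finset.sum_comm]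
  refine Finset.sum_congr rfl fun k _ => ?_
  rw [Matrix.mul_apply, Finset.sum_mul]
  refine Finset.sum_congr rfl fun j _ => ?_
  rw [Matrix.kroneckerMap_apply, Matrix.map_apply, Matrix.conjTranspose_apply, RCLike.star_def]
  ring

lemma quad1 (M : Matrix (JJ N) (JJ N) ℂ) (b : ℕ) (x x' : Fin 3 × Sp L l → SU N) :
    trace ((Ev b x)ᴴ * (M * Ev b x')) =
      ∑ p : JJ N, conj ((sS b x).1 p.1 p.2) * ∑ q : JJ N, M p q * (sS b x').1 q.1 q.2 := by
  simp only [Matrix.trace, Matrix.diag]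
  rw [Finset.sum_eq_single (0 : JJ N)]
  · rw [Matrix.mul_apply]
    refine Finset.sum_congr rfl fun p _ => ?_
    rw [Matrix.conjTranspose_apply, Matrix.mul_apply]
    simp only [Ev, Matrix.of_apply, if_true, RCLike.star_def]
  · intro q _ hq
    rw [Matrix.mul_apply]
    refine Finset.sum_eq_zero fun p _ => ?_
    rw [Matrix.conjTranspose_apply]
    simp only [Ev, Matrix.of_apply, if_neg hq, star_zero, zero_mul]
  · intro h
    exact absurd (Finset.mem_univ _) h

/-- the line in direction `0` -/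
def tS {n : ℕ} (a : ℕ) (U : Link n L l → SU N) (u : ZMod L) : SU N :=
  hp (fun t : ℕ => U (0, ((t : ZMod n), u, 0, 0))) a

/-- the line in direction `1` -/
def xS {n : ℕ} (b : ℕ) (U : Link n L l → SU N) (t : ZMod n) : SU N :=
  hp (fun u : ℕ => U (1, (t, (u : ZMod L), 0, 0))) b

/-- the Wilson loop around the rectangle with corners `0` and `(a, b)` in the plane `(0, 1)` -/
def wil {n : ℕ} (a b : ℕ) (U : Link n L l → SU N) : ℂ :=
  trace (tS a U 0 * xS b U (a : ZMod n) * (tS a U (b : ZMod L))⁻¹ * (xS b U 0)⁻¹).1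

/-- the insertions -/
def Di (a b : ℕ) (i : ℕ) (x : Fin 3 × Sp L l → SU N) : Matrix (JJ N) (JJ N) ℂ :=
  if i = 0 then (Ev b x)ᴴ else if i = a then Ev b x else 1

/-- the transport -/
def Ti (a b : ℕ) (i : ℕ) (g : Sp L l → SU N) : Matrix (JJ N) (JJ N) ℂ :=
  if i < a then TT b g else 1

lemma su_inv (g : SU N) : (g⁻¹).1 = g.1ᴴ := rfl

lemma sS_xs {m : ℕ} (b : ℕ) (U : Link (m + 1) L l → SU N) (t : ZMod (m + 1)) :
    sS b (xs (sg (m + 1) L l) U t) = xS b U t := rfl

/-- the trace of the ordered product is the Wilson loop -/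
lemma trace_wil {m a : ℕ} (ha : 1 ≤ a) (ham : a ≤ m) (b : ℕ) (U : Link (m + 1) L l → SU N) :
    trace (op (n := m + 1) fun t : ZMod (m + 1) => Di a b t.val (xs (sg (m + 1) L l) U t) *
      Ti a b t.val (gs (sg (m + 1) L l) U t)) = wil a b U := by
  obtain ⟨r, rfl⟩ : ∃ r, m = a + r := ⟨m - a, by omega⟩
  obtain ⟨M, hM⟩ : ∃ M : ℕ → Matrix (JJ N) (JJ N) ℂ, M = fun i : ℕ =>
    Di a b i (xs (sg (a + r + 1) L l) U ((i : ℕ) : ZMod (a + r + 1))) *
      Ti a b i (gs (sg (a + r + 1) L l) U ((i : ℕ) : ZMod (a + r + 1))) := ⟨_, rfl⟩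
  have e0 : (op (n := a + r + 1) fun t : ZMod (a + r + 1) =>
      Di a b t.val (xs (sg (a + r + 1) L l) U t) *
      Ti a b t.val (gs (sg (a + r + 1) L l) U t)) = hp M (a + r + 1) := by
    rw [← op_hp]
    refine congrArg (op (n := a + r + 1)) ?_
    funext t
    have h1 : ((ZMod.val (n := a + r + 1) t : ℕ) : ZMod (a + r + 1)) = t :=
      ZMod.natCast_zmod_val (n := a + r + 1) t
    rw [hM]
    show _ = Di a b (ZMod.val (n := a + r + 1) t) (xs (sg (a + r + 1) L l) U
      ((ZMod.val (n := a + r + 1) t : ℕ) : ZMod (a + r + 1))) *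
      Ti a b (ZMod.val (n := a + r + 1) t) (gs (sg (a + r + 1) L l) U
        ((ZMod.val (n := a + r + 1) t : ℕ) : ZMod (a + r + 1)))
    rw [h1]
  have e1 : hp M a = (Ev b (xs (sg (a + r + 1) L l) U 0))ᴴ *
      hp (fun i : ℕ => TT b (gs (sg (a + r + 1) L l) U ((i : ℕ) : ZMod (a + r + 1)))) a := by
    refine hp_head ha ?_ fun i h1 h2 => ?_
    · rw [hM]
      simp only [Di, Ti, if_true, Nat.cast_zero]
      rw [if_pos (by omega : 0 < a)]
    · rw [hM]
      simp only [Di, Ti]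
      rw [if_neg (by omega), if_neg (by omega), if_pos h2, one_mul]
  have e2 : hp (fun i => M (a + i)) (r + 1) =
      Ev b (xs (sg (a + r + 1) L l) U ((a : ℕ) : ZMod (a + r + 1))) *
        hp (fun _ => (1 : Matrix (JJ N) (JJ N) ℂ)) (r + 1) := by
    refine hp_head (by omega) ?_ fun i h1 h2 => ?_
    · rw [hM]
      simp only [Di, Ti, add_zero, if_true]
      rw [if_neg (by omega), if_neg (by omega)]
    · rw [hM]
      simp only [Di, Ti]
      rw [if_neg (by omega), if_neg (by omega), if_neg (by omega), one_mul]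
  have e3 : hp (fun i : ℕ => TT b (gs (sg (a + r + 1) L l) U ((i : ℕ) : ZMod (a + r + 1)))) a =
      (tS a U 0).1 ⊗ₖ ((tS a U (b : ZMod L)).1.map (starRingEnd ℂ)) := by
    have h1 := hp_kron (fun i : ℕ => (gs (sg (a + r + 1) L l) U ((i : ℕ) : ZMod (a + r + 1))
      (0, 0)).1) (fun i : ℕ => (gs (sg (a + r + 1) L l) U ((i : ℕ) : ZMod (a + r + 1))
      ((b : ZMod L), 0)).1.map (starRingEnd ℂ)) a
    refine h1.trans ?_
    rw [hp_coe, hp_conjm, hp_coe]
    rfl
  rw [e0]
  have e4 : hp M (a + r + 1) = hp M a * hp (fun i => M (a + i)) (r + 1) := hp_add M a (r + 1)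
  rw [e4, e1, e2, hp_one, Matrix.mul_one, Matrix.mul_assoc, quad1, e3]
  rw [quad0]
  unfold wil
  rw [sS_xs, sS_xs]
  rfl

/-! ### the integral -/

lemma Ev_cont (b : ℕ) (p q : JJ N) :
    Continuous fun x : Fin 3 × Sp L l → SU N => Ev b x p q := by
  unfold Ev
  simp only [Matrix.of_apply]
  split_ifs
  · have h1 : Continuous fun x : Fin 3 × Sp L l → SU N => sS b x := by
      unfold sS
      exact continuous_hp fun t => continuous_apply _
    exact (continuous_apply_apply p.1 p.2).comp (continuous_coe.comp h1)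
  · exact continuous_const

section main

variable [MeasurableSpace (SU N)] [BorelSpace (SU N)] (μ : Measure (SU N)) [IsProbabilityMeasure μ]

lemma Ev_bt (b : ℕ) : BT (Ev b : (Fin 3 × Sp L l → SU N) → Matrix (JJ N) (JJ N) ℂ) :=
  fun p q => BC_cont (Ev_cont b p q)

lemma Di_bt (a b i : ℕ) : BT (Di a b i : (Fin 3 × Sp L l → SU N) → Matrix (JJ N) (JJ N) ℂ) := by
  unfold Di
  split_ifs
  · exact (Ev_bt b).star
  · exact Ev_bt b
  · exact BT.const 1

lemma Ti_bt (a b i : ℕ) : BT (Ti a b i : (Sp L l → SU N) → Matrix (JJ N) (JJ N) ℂ) := by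
  unfold Ti
  split_ifs
  · exact fun p q => BC_cont (TT_cont b p q)
  · exact BT.const 1

/-- the kernel without sources, as a multiple of the identity -/
def kid (μ : Measure (SU N)) (k : ℕ) (β : ℝ) (x x' : Fin 3 × Sp L l → SU N) :
    Matrix (JJ N) (JJ N) ℂ :=
  mint (PM μ (Sp L l)) fun g => ((kw k β x g x' : ℝ) : ℂ) • (1 : Matrix (JJ N) (JJ N) ℂ)

lemma kidW_bt (k : ℕ) (β : ℝ) : BT fun w : ((Fin 3 × Sp L l → SU N) ×
    (Fin 3 × Sp L l → SU N)) × (Sp L l → SU N) =>
    ((kw k β w.1.1 w.2 w.1.2 : ℝ) : ℂ) • (1 : Matrix (JJ N) (JJ N) ℂ) :=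
  BT.smul (BM.toC (BM_cont (kw_cont k β))) (BT.const 1)

lemma kid_bt (k : ℕ) (β : ℝ) :
    BT (Function.uncurry (kid (L := L) (l := l) μ k β)) := (kidW_bt k β).intg

/-- the weight with the insertions -/
lemma wW_bt (k : ℕ) (β : ℝ) (a b i : ℕ) : BT fun w : ((Fin 3 × Sp L l → SU N) ×
    (Fin 3 × Sp L l → SU N)) × (Sp L l → SU N) =>
    Di a b i w.1.1 * (((kw k β w.1.1 w.2 w.1.2 : ℝ) : ℂ) • Ti a b i w.2) :=
  BT.mul ((Di_bt a b i).comp measurable_fst.fst)
    (BT.smul (BM.toC (BM_cont (kw_cont k β))) ((Ti_bt a b i).comp measurable_snd))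

/-- **The integral of the Wilson loop.** -/
theorem int_wil (k : ℕ) (β : ℝ) {a r : ℕ} (ha : 1 ≤ a) (b : ℕ) :
    ∫ U : Link (a + r + 1) L l → SU N, ((Real.exp (-(β * action k U)) : ℝ) : ℂ) * wil a b U
      ∂(Measure.pi fun _ => μ) =
    ∫ y, trace ((Ev b y)ᴴ * mint (PM μ (Fin 3 × Sp L l)) fun u =>
      kM (PM μ (Fin 3 × Sp L l)) (kap μ k β b) a y u *
        (Ev b u * kM (PM μ (Fin 3 × Sp L l)) (kid μ k β) (r + 1) u y))
        ∂(PM μ (Fin 3 × Sp L l)) := by
  have h1 := slicesV (μ := μ) (sg (a + r + 1) L l)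
    (W := fun i x g x' => Di a b i x * (((kw k β x g x' : ℝ) : ℂ) • Ti a b i g))
    (fun i => wW_bt k β a b i)
  have hint : ∀ U : Link (a + r + 1) L l → SU N,
      trace (op (n := a + r + 1) fun t : ZMod (a + r + 1) =>
        Di a b t.val (xs (sg (a + r + 1) L l) U t) *
        (((kw k β (xs (sg (a + r + 1) L l) U t) (gs (sg (a + r + 1) L l) U t)
          (xs (sg (a + r + 1) L l) U (t + 1)) : ℝ) : ℂ) •
          Ti a b t.val (gs (sg (a + r + 1) L l) U t))) =
      ((Real.exp (-(β * action k U)) : ℝ) : ℂ) * wil a b U := by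
    intro U
    simp only [Matrix.mul_smul]
    have h2 := op_smul (n := a + r + 1) (fun t : ZMod (a + r + 1) =>
        ((kw k β (xs (sg (a + r + 1) L l) U t) (gs (sg (a + r + 1) L l) U t)
          (xs (sg (a + r + 1) L l) U (t + 1)) : ℝ) : ℂ))
        (fun t : ZMod (a + r + 1) => Di a b t.val (xs (sg (a + r + 1) L l) U t) *
          Ti a b t.val (gs (sg (a + r + 1) L l) U t))
    refine (congrArg trace h2).trans ?_
    rw [Matrix.trace_smul, trace_wil ha (by omega), smul_eq_mul]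
    congr 1
    rw [← prod_kw]
    push_cast
    rfl
  simp only [hint] at h1
  refine h1.trans ?_
  congr 1
  funext y
  congr 1
  have hW : ∀ (i : ℕ) (x x' : Fin 3 × Sp L l → SU N),
      mint (PM μ (Sp L l)) (fun g => Di a b i x * (((kw k β x g x' : ℝ) : ℂ) • Ti a b i g)) =
      Di a b i x * mint (PM μ (Sp L l)) fun g => ((kw k β x g x' : ℝ) : ℂ) • Ti a b i g := by
    intro i x x'
    refine mint_mul_left _ ?_
    exact (BT.smul (BM.toC (BM_cont (kw_cont k β))) ((Ti_bt a b i).comp measurable_snd)).comp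
      (φ := fun g : Sp L l → SU N => ((x, x'), g)) (measurable_const.prodMk measurable_id)
  have hD : BT (Ev b : (Fin 3 × Sp L l → SU N) → Matrix (JJ N) (JJ N) ℂ) := Ev_bt b
  refine Itv_two (κ0 := kap μ k β b) (κ1 := kid μ k β) (D0 := fun x => (Ev b x)ᴴ) (D1 := Ev b)
    (kap_bt μ k β b) (kid_bt μ k β) hD ha ?_ ?_ ?_ ?_ y
  · intro x v
    rw [hW]
    simp only [Di, Ti, if_true, if_pos (show 0 < a by omega)]
    rfl
  · intro i h1 h2
    funext x v
    rw [hW]
    simp only [Di, Ti]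
    rw [if_neg (by omega), if_neg (by omega), one_mul]
    simp only [if_pos h2]
    rfl
  · intro x v
    rw [hW]
    simp only [Di, Ti, if_true, if_neg (show ¬ a = 0 by omega), if_neg (lt_irrefl a)]
    rfl
  · intro i h1 h2
    funext x v
    rw [hW]
    simp only [Di, Ti]
    rw [if_neg (by omega), if_neg (by omega), one_mul]
    simp only [if_neg (show ¬ i < a by omega)]
    rfl

end main

end

end Run7.h182.WL
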