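import Pool.Agent.Run7.h182.WL.Loop
import Pool.Agent.Run7.h182.WL.Bnd
import Pool.Agent.Run7.h182.WL.Def

/-!
# Wilson loops in a unitary representation, in terms of the transfer kernels
-/

set_option autoImplicit false
set_option linter.unusedSectionVars false
set_option linter.unusedVariables false

open MeasureTheory Matrix
open scoped ComplexConjugate Kronecker
open Pool.Agent.Run7.h897.FS
open Run7.h4.YM

namespace Run7.h182.WL

open Run7.h182.PC

noncomputable section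

section hp

variable {N d : ℕ} (ρ : SU N →* unitaryGroup (Fin d) ℂ)

lemma hp_rho (g : ℕ → SU N) (n : ℕ) : hp (fun t => (ρ (g t)).1) n = (ρ (hp g n)).1 := by
  induction n with
  | zero => simp
  | succ n ih => rw [hp_succ, hp_succ, ih, map_mul]; rfl

lemma rho_inv (g : SU N) : (ρ g⁻¹).1 = (ρ g).1ᴴ := by
  rw [map_inv]
  rfl

lemma rho_star (g : SU N) : ((ρ g).1)ᴴ * (ρ g).1 = 1 := by
  rw [← rho_inv]
  have : (ρ g⁻¹).1 * (ρ g).1 = (ρ g⁻¹ * ρ g).1 := rfl
  rw [this, ← map_mul, inv_mul_cancel, map_one]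
  rfl

end hp

variable {N L l d : ℕ} [NeZero N] [NeZero L] [NeZero l] [NeZero d]
  (ρ : SU N →* unitaryGroup (Fin d) ℂ)

/-- the vector of the line, as a matrix with one column -/
def Er (b : ℕ) (x : Fin 3 × Sp L l → SU N) : Matrix (JJ d) (JJ d) ℂ :=
  Matrix.of fun p q => if q = 0 then (ρ (sS b x)).1 p.1 p.2 else 0

lemma quad2 (M : Matrix (JJ d) (JJ d) ℂ) (b : ℕ) (x x' : Fin 3 × Sp L l → SU N) :
    trace ((Er ρ b x)ᴴ * (M * Er ρ b x')) =
      ∑ p : JJ d, conj ((ρ (sS b x)).1 p.1 p.2) *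
        ∑ q : JJ d, M p q * (ρ (sS b x')).1 q.1 q.2 := by
  simp only [Matrix.trace, Matrix.diag]
  rw [Finset.sum_eq_single (0 : JJ d)]
  · rw [Matrix.mul_apply]
    refine Finset.sum_congr rfl fun p _ => ?_
    rw [Matrix.conjTranspose_apply, Matrix.mul_apply]
    simp only [Er, Matrix.of_apply, if_true, RCLike.star_def]
  · intro q _ hq
    rw [Matrix.mul_apply]
    refine Finset.sum_eq_zero fun p _ => ?_
    rw [Matrix.conjTranspose_apply]
    simp only [Er, Matrix.of_apply, if_neg hq, star_zero, zero_mul]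
  · intro h
    exact absurd (Finset.mem_univ _) h

/-- the projection -/
def Pr (d : ℕ) [NeZero d] : Matrix (JJ d) (JJ d) ℂ :=
  Matrix.of fun p q => if p = 0 ∧ q = 0 then (d : ℂ) else 0

lemma Er_sq (b : ℕ) (x : Fin 3 × Sp L l → SU N) : (Er ρ b x)ᴴ * Er ρ b x = Pr d := by
  ext p q
  rw [Matrix.mul_apply]
  simp only [Matrix.conjTranspose_apply, Er, Pr, Matrix.of_apply]
  by_cases hp : p = 0
  · by_cases hq : q = 0
    · rw [if_pos ⟨hp, hq⟩]
      simp only [if_pos hp, if_pos hq, RCLike.star_def]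
      have h1 := rho_star ρ (sS b x)
      have h2 : trace (((ρ (sS b x)).1)ᴴ * (ρ (sS b x)).1) = d := by
        rw [h1, trace_one, Fintype.card_fin]
      rw [← h2]
      simp only [Matrix.trace, Matrix.diag, Matrix.mul_apply, Fintype.sum_prod_type,
        Matrix.conjTranspose_apply, RCLike.star_def]
      rw [Finset.sum_comm]
    · rw [if_neg fun h => hq h.2]
      simp only [if_neg hq, mul_zero, Finset.sum_const_zero]
  · rw [if_neg fun h => hp h.1]
    simp only [if_neg hp, star_zero, zero_mul, Finset.sum_const_zero]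

lemma Pr_tr : trace (Pr d) = (d : ℂ) := by
  simp only [Matrix.trace, Matrix.diag, Pr, Matrix.of_apply]
  rw [Finset.sum_eq_single (0 : JJ d)]
  · simp
  · intro q _ hq
    rw [if_neg fun h => hq h.1]
  · intro h
    exact absurd (Finset.mem_univ _) h

lemma Pr_sq : Pr d * Pr d = (d : ℂ) • Pr d := by
  ext p q
  rw [Matrix.mul_apply, Matrix.smul_apply]
  simp only [Pr, Matrix.of_apply, smul_eq_mul]
  rw [Finset.sum_eq_single (0 : JJ d)]
  · by_cases hp : p = 0 <;> by_cases hq : q = 0 <;> simp [hp, hq]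
  · intro r _ hr
    rw [if_neg fun h => hr h.2, zero_mul]
  · intro h
    exact absurd (Finset.mem_univ _) h

/-- the matrix of the two sources -/
def TR (R : ℕ) (g : Sp L l → SU N) : Matrix (JJ d) (JJ d) ℂ :=
  (ρ (g (0, 0))).1 ⊗ₖ ((ρ (g ((R : ZMod L), 0))).1.map (starRingEnd ℂ))

lemma TR_star (R : ℕ) (g : Sp L l → SU N) : (TR ρ R g)ᴴ = TR ρ R fun v => (g v)⁻¹ := by
  unfold TR
  rw [Matrix.conjTranspose_kronecker, rho_inv, rho_inv]
  congr 1

/-- the insertions -/
def Dr' (a b : ℕ) (i : ℕ) (x : Fin 3 × Sp L l → SU N) : Matrix (JJ d) (JJ d) ℂ :=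
  if i = 0 then (Er ρ b x)ᴴ else if i = a then Er ρ b x else 1

/-- the transport -/
def Tr' (a b : ℕ) (i : ℕ) (g : Sp L l → SU N) : Matrix (JJ d) (JJ d) ℂ :=
  if i < a then TR ρ b g else 1

/-- the trace of the ordered product is the Wilson loop -/
lemma trace_loop {m a : ℕ} (ha : 1 ≤ a) (ham : a ≤ m) (b : ℕ) (U : Link (m + 1) L l → SU N) :
    trace (op (n := m + 1) fun t : ZMod (m + 1) => Dr' ρ a b t.val (xs (sg (m + 1) L l) U t) *
      Tr' ρ a b t.val (gs (sg (m + 1) L l) U t)) = trace (ρ (loop a b U)).1 := by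
  obtain ⟨r, rfl⟩ : ∃ r, m = a + r := ⟨m - a, by omega⟩
  obtain ⟨M, hM⟩ : ∃ M : ℕ → Matrix (JJ d) (JJ d) ℂ, M = fun i : ℕ =>
    Dr' ρ a b i (xs (sg (a + r + 1) L l) U ((i : ℕ) : ZMod (a + r + 1))) *
      Tr' ρ a b i (gs (sg (a + r + 1) L l) U ((i : ℕ) : ZMod (a + r + 1))) := ⟨_, rfl⟩
  have e0 : (op (n := a + r + 1) fun t : ZMod (a + r + 1) =>
      Dr' ρ a b t.val (xs (sg (a + r + 1) L l) U t) *
      Tr' ρ a b t.val (gs (sg (a + r + 1) L l) U t)) = hp M (a + r + 1) := by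
    rw [← op_hp]
    refine congrArg (op (n := a + r + 1)) ?_
    funext t
    have h1 : ((ZMod.val (n := a + r + 1) t : ℕ) : ZMod (a + r + 1)) = t :=
      ZMod.natCast_zmod_val (n := a + r + 1) t
    rw [hM]
    show _ = Dr' ρ a b (ZMod.val (n := a + r + 1) t) (xs (sg (a + r + 1) L l) U
      ((ZMod.val (n := a + r + 1) t : ℕ) : ZMod (a + r + 1))) *
      Tr' ρ a b (ZMod.val (n := a + r + 1) t) (gs (sg (a + r + 1) L l) U
        ((ZMod.val (n := a + r + 1) t : ℕ) : ZMod (a + r + 1)))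
    rw [h1]
  have e1 : hp M a = (Er ρ b (xs (sg (a + r + 1) L l) U 0))ᴴ *
      hp (fun i : ℕ => TR ρ b (gs (sg (a + r + 1) L l) U ((i : ℕ) : ZMod (a + r + 1)))) a := by
    refine hp_head ha ?_ fun i h1 h2 => ?_
    · rw [hM]
      simp only [Dr', Tr', if_true, Nat.cast_zero]
      rw [if_pos (by omega : 0 < a)]
    · rw [hM]
      simp only [Dr', Tr']
      rw [if_neg (by omega), if_neg (by omega), if_pos h2, one_mul]
  have e2 : hp (fun i => M (a + i)) (r + 1) =
      Er ρ b (xs (sg (a + r + 1) L l) U ((a : ℕ) : ZMod (a + r + 1))) *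
        hp (fun _ => (1 : Matrix (JJ d) (JJ d) ℂ)) (r + 1) := by
    refine hp_head (by omega) ?_ fun i h1 h2 => ?_
    · rw [hM]
      simp only [Dr', Tr', add_zero, if_true]
      rw [if_neg (by omega), if_neg (by omega)]
    · rw [hM]
      simp only [Dr', Tr']
      rw [if_neg (by omega), if_neg (by omega), if_neg (by omega), one_mul]
  have e3 : hp (fun i : ℕ => TR ρ b (gs (sg (a + r + 1) L l) U
      ((i : ℕ) : ZMod (a + r + 1)))) a =
      (ρ (segT a U 0)).1 ⊗ₖ ((ρ (segT a U (b : ZMod L))).1.map (starRingEnd ℂ)) := by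
    have h1 := hp_kron (fun i : ℕ => (ρ (gs (sg (a + r + 1) L l) U
      ((i : ℕ) : ZMod (a + r + 1)) (0, 0))).1)
      (fun i : ℕ => (ρ (gs (sg (a + r + 1) L l) U ((i : ℕ) : ZMod (a + r + 1))
      ((b : ZMod L), 0))).1.map (starRingEnd ℂ)) a
    refine h1.trans ?_
    rw [hp_rho, hp_conjm, hp_rho]
    rfl
  rw [e0]
  have e4 : hp M (a + r + 1) = hp M a * hp (fun i => M (a + i)) (r + 1) := hp_add M a (r + 1)
  rw [e4, e1, e2, hp_one, Matrix.mul_one, Matrix.mul_assoc, quad2, e3]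
  rw [quad0]
  have e5 : sS b (xs (sg (a + r + 1) L l) U ((a : ℕ) : ZMod (a + r + 1))) =
      segX b U ((a : ℕ) : ZMod (a + r + 1)) := rfl
  have e6 : sS b (xs (sg (a + r + 1) L l) U 0) = segX b U 0 := rfl
  unfold loop
  rw [e5, e6, map_mul, map_mul, map_mul]
  rw [← rho_inv, ← rho_inv]
  rfl

lemma trace_TR {m : ℕ} (R : ℕ) (U : Link (m + 1) L l → SU N) :
    trace (op (n := m + 1) fun t : ZMod (m + 1) => TR ρ R (gs (sg (m + 1) L l) U t)) =
      trace (ρ (line U 0)).1 * conj (trace (ρ (line U (R : ZMod L))).1) := by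
  have hline : ∀ u : ZMod L, (ρ (line U u)).1 = op (n := m + 1) fun t : ZMod (m + 1) =>
      (ρ (U (0, (t, u, 0, 0)))).1 := by
    intro u
    have h1 : line U u = hp (fun t : ℕ => U (0, ((t : ZMod (m + 1)), u, 0, 0))) (m + 1) := rfl
    rw [h1, ← hp_rho, ← op_hp]
    refine congrArg (op (n := m + 1)) ?_
    funext t
    have h2 : (((t : Fin (m + 1)).val : ℕ) : ZMod (m + 1)) = t :=
      ZMod.natCast_zmod_val (n := m + 1) t
    rw [h2]
  have h1 := op_kron (n := m + 1)
    (fun t : ZMod (m + 1) => (ρ (gs (sg (m + 1) L l) U t (0, 0))).1)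
    (fun t : ZMod (m + 1) => ((ρ (gs (sg (m + 1) L l) U t ((R : ZMod L), 0))).1.map
      (starRingEnd ℂ)))
  have h2 := op_conj (n := m + 1)
    (fun t : ZMod (m + 1) => (ρ (gs (sg (m + 1) L l) U t ((R : ZMod L), 0))).1)
  have h3 := congrArg trace h1
  refine h3.trans ?_
  rw [Matrix.trace_kronecker]
  congr 1
  · rw [hline]; rfl
  · rw [hline]
    refine (congrArg trace h2).trans ?_
    rw [trace_conj]
    rfl

/-! ### measurability -/

section cont

variable {ρ}

lemma rho_cont (hρ : Continuous ρ) (p q : Fin d) : Continuous fun g : SU N => (ρ g).1 p q :=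
  (continuous_apply_apply p q).comp (continuous_subtype_val.comp hρ)

lemma Er_cont (hρ : Continuous ρ) (b : ℕ) (p q : JJ d) :
    Continuous fun x : Fin 3 × Sp L l → SU N => Er ρ b x p q := by
  unfold Er
  simp only [Matrix.of_apply]
  split_ifs
  · have h1 : Continuous fun x : Fin 3 × Sp L l → SU N => sS b x := by
      unfold sS
      exact continuous_hp fun t => continuous_apply _
    exact (rho_cont hρ _ _).comp h1
  · exact continuous_const

lemma TR_cont (hρ : Continuous ρ) (R : ℕ) (i j : JJ d) :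
    Continuous fun g : Sp L l → SU N => TR ρ R g i j := by
  unfold TR
  simp only [Matrix.kroneckerMap_apply, Matrix.map_apply]
  have c : ∀ (v : Sp L l) (i j : Fin d), Continuous fun g : Sp L l → SU N => (ρ (g v)).1 i j :=
    fun v i j => (rho_cont hρ i j).comp (continuous_apply v)
  exact (c _ _ _).mul (Complex.continuous_conj.comp (c _ _ _))

end cont

section main

variable [MeasurableSpace (SU N)] [BorelSpace (SU N)] (μ : Measure (SU N)) [IsProbabilityMeasure μ]

variable {ρ}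

lemma Er_bt (hρ : Continuous ρ) (b : ℕ) :
    BT (Er ρ b : (Fin 3 × Sp L l → SU N) → Matrix (JJ d) (JJ d) ℂ) :=
  fun p q => BC_cont (Er_cont hρ b p q)

lemma Dr'_bt (hρ : Continuous ρ) (a b i : ℕ) :
    BT (Dr' ρ a b i : (Fin 3 × Sp L l → SU N) → Matrix (JJ d) (JJ d) ℂ) := by
  unfold Dr'
  split_ifs
  · exact (Er_bt hρ b).star
  · exact Er_bt hρ b
  · exact BT.const 1

lemma Tr'_bt (hρ : Continuous ρ) (a b i : ℕ) :
    BT (Tr' ρ a b i : (Sp L l → SU N) → Matrix (JJ d) (JJ d) ℂ) := by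
  unfold Tr'
  split_ifs
  · exact fun p q => BC_cont (TR_cont hρ b p q)
  · exact BT.const 1

/-- the weight with two sources -/
lemma WR_bt (hρ : Continuous ρ) (k : ℕ) (β : ℝ) (R : ℕ) : BT fun w : ((Fin 3 × Sp L l → SU N) ×
    (Fin 3 × Sp L l → SU N)) × (Sp L l → SU N) =>
    ((kw k β w.1.1 w.2 w.1.2 : ℝ) : ℂ) • TR ρ R w.2 := by
  refine BT.smul (BM.toC (BM_cont (kw_cont k β))) fun i j => ?_
  exact BC_cont ((TR_cont hρ R i j).comp continuous_snd)

variable (ρ) in
/-- the kernel with the two sources -/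
def kar (μ : Measure (SU N)) (k : ℕ) (β : ℝ) (R : ℕ) (x x' : Fin 3 × Sp L l → SU N) :
    Matrix (JJ d) (JJ d) ℂ :=
  mint (PM μ (Sp L l)) fun g => ((kw k β x g x' : ℝ) : ℂ) • TR ρ R g

lemma kar_bt (hρ : Continuous ρ) (k : ℕ) (β : ℝ) (R : ℕ) :
    BT (Function.uncurry (kar (L := L) (l := l) ρ μ k β R)) := (WR_bt hρ k β R).intg

lemma kar_star (hρ : Continuous ρ) [μ.IsInvInvariant] (k : ℕ) (β : ℝ) (R : ℕ)
    (x x' : Fin 3 × Sp L l → SU N) :
    (kar ρ μ k β R x x')ᴴ = kar ρ μ k β R x' x := by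
  unfold kar
  rw [mint_star]
  have h1 : MeasurePreserving (fun g : Sp L l → SU N => fun y => (g y)⁻¹) (PM μ (Sp L l))
      (PM μ (Sp L l)) :=
    measurePreserving_pi (fun _ : Sp L l => μ) (fun _ : Sp L l => μ)
      (f := fun _ g => g⁻¹) fun _ => Measure.measurePreserving_inv μ
  have hb : BT fun g : Sp L l → SU N => ((kw k β x' g x : ℝ) : ℂ) • TR ρ R g :=
    (WR_bt hρ k β R).comp (φ := fun g : Sp L l → SU N => ((x', x), g))
      (measurable_const.prodMk measurable_id)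
  rw [← mint_mp h1 hb]
  refine congrArg (mint (PM μ (Sp L l))) ?_
  funext g
  rw [kw_swap, Matrix.conjTranspose_smul, TR_star, RCLike.star_def, Complex.conj_ofReal]

/-- the kernel without sources, as a multiple of the identity -/
def kir (d : ℕ) (μ : Measure (SU N)) (k : ℕ) (β : ℝ) (x x' : Fin 3 × Sp L l → SU N) :
    Matrix (JJ d) (JJ d) ℂ :=
  mint (PM μ (Sp L l)) fun g => ((kw k β x g x' : ℝ) : ℂ) • (1 : Matrix (JJ d) (JJ d) ℂ)

omit [NeZero d] in
lemma kirW_bt (k : ℕ) (β : ℝ) : BT fun w : ((Fin 3 × Sp L l → SU N) ×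
    (Fin 3 × Sp L l → SU N)) × (Sp L l → SU N) =>
    ((kw k β w.1.1 w.2 w.1.2 : ℝ) : ℂ) • (1 : Matrix (JJ d) (JJ d) ℂ) :=
  BT.smul (BM.toC (BM_cont (kw_cont k β))) (BT.const 1)

omit [NeZero d] in
lemma kir_bt (k : ℕ) (β : ℝ) :
    BT (Function.uncurry (kir (L := L) (l := l) d μ k β)) := (kirW_bt k β).intg

omit [NeZero d] in
lemma kir_star [μ.IsInvInvariant] (k : ℕ) (β : ℝ) (x x' : Fin 3 × Sp L l → SU N) :
    (kir d μ k β x x')ᴴ = kir d μ k β x' x := by
  unfold kir
  rw [mint_star]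
  have h1 : MeasurePreserving (fun g : Sp L l → SU N => fun y => (g y)⁻¹) (PM μ (Sp L l))
      (PM μ (Sp L l)) :=
    measurePreserving_pi (fun _ : Sp L l => μ) (fun _ : Sp L l => μ)
      (f := fun _ g => g⁻¹) fun _ => Measure.measurePreserving_inv μ
  have hb : BT fun g : Sp L l → SU N =>
      ((kw k β x' g x : ℝ) : ℂ) • (1 : Matrix (JJ d) (JJ d) ℂ) :=
    (kirW_bt k β).comp (φ := fun g : Sp L l → SU N => ((x', x), g))
      (measurable_const.prodMk measurable_id)
  rw [← mint_mp h1 hb]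
  refine congrArg (mint (PM μ (Sp L l))) ?_
  funext g
  rw [kw_swap, Matrix.conjTranspose_smul, Matrix.conjTranspose_one, RCLike.star_def,
    Complex.conj_ofReal]

lemma kir_sc (k : ℕ) (β : ℝ) {n : ℕ} (hn : 1 ≤ n) : ∀ x y : Fin 3 × Sp L l → SU N,
    ∃ c : ℂ, kM (PM μ (Fin 3 × Sp L l)) (kir d μ k β) n x y = c • 1 := by
  have h0 : ∀ x y : Fin 3 × Sp L l → SU N, kir d μ k β x y =
      (kir d μ k β x y 0 0) • (1 : Matrix (JJ d) (JJ d) ℂ) := by
    intro x y
    ext i j
    rw [Matrix.smul_apply, smul_eq_mul]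
    unfold kir
    rw [mint_apply, mint_apply]
    simp only [Matrix.smul_apply, Matrix.one_apply_eq, smul_eq_mul, mul_one]
    by_cases hij : i = j
    · subst hij
      simp
    · simp [Matrix.one_apply_ne hij]
  induction n, hn using Nat.le_induction with
  | base => exact fun x y => ⟨_, h0 x y⟩
  | succ n hn ih =>
    intro x y
    refine ⟨kM (PM μ (Fin 3 × Sp L l)) (kir d μ k β) (n + 1) x y 0 0, ?_⟩
    ext i j
    rw [Matrix.smul_apply, smul_eq_mul, kM_succ hn, mint_apply, mint_apply,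
      ← integral_mul_const]
    congr 1
    funext u
    obtain ⟨c, hc⟩ := ih u y
    rw [hc, h0 x u]
    simp only [Matrix.smul_mul, Matrix.mul_smul, Matrix.mul_one, Matrix.smul_apply,
      Matrix.one_apply_eq, smul_eq_mul, mul_one]
    ring

/-- the weight with the insertions -/
lemma wR_bt (hρ : Continuous ρ) (k : ℕ) (β : ℝ) (a b i : ℕ) : BT fun w :
    ((Fin 3 × Sp L l → SU N) × (Fin 3 × Sp L l → SU N)) × (Sp L l → SU N) =>
    Dr' ρ a b i w.1.1 * (((kw k β w.1.1 w.2 w.1.2 : ℝ) : ℂ) • Tr' ρ a b i w.2) :=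
  BT.mul ((Dr'_bt hρ a b i).comp measurable_fst.fst)
    (BT.smul (BM.toC (BM_cont (kw_cont k β))) ((Tr'_bt hρ a b i).comp measurable_snd))

/-- **The integral of the Wilson loop.** -/
theorem int_loop (hρ : Continuous ρ) (k : ℕ) (β : ℝ) {a r : ℕ} (ha : 1 ≤ a) (b : ℕ) :
    ∫ U : Link (a + r + 1) L l → SU N, ((Real.exp (-(β * action k U)) : ℝ) : ℂ) *
      trace (ρ (loop a b U)).1 ∂(Measure.pi fun _ => μ) =
    ∫ y, trace ((Er ρ b y)ᴴ * mint (PM μ (Fin 3 × Sp L l)) fun u =>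
      kM (PM μ (Fin 3 × Sp L l)) (kar ρ μ k β b) a y u *
        (Er ρ b u * kM (PM μ (Fin 3 × Sp L l)) (kir d μ k β) (r + 1) u y))
        ∂(PM μ (Fin 3 × Sp L l)) := by
  have h1 := slicesV (μ := μ) (sg (a + r + 1) L l)
    (W := fun i x g x' => Dr' ρ a b i x * (((kw k β x g x' : ℝ) : ℂ) • Tr' ρ a b i g))
    (fun i => wR_bt hρ k β a b i)
  have hint : ∀ U : Link (a + r + 1) L l → SU N,
      trace (op (n := a + r + 1) fun t : ZMod (a + r + 1) =>
        Dr' ρ a b t.val (xs (sg (a + r + 1) L l) U t) *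
        (((kw k β (xs (sg (a + r + 1) L l) U t) (gs (sg (a + r + 1) L l) U t)
          (xs (sg (a + r + 1) L l) U (t + 1)) : ℝ) : ℂ) •
          Tr' ρ a b t.val (gs (sg (a + r + 1) L l) U t))) =
      ((Real.exp (-(β * action k U)) : ℝ) : ℂ) * trace (ρ (loop a b U)).1 := by
    intro U
    simp only [Matrix.mul_smul]
    have h2 := op_smul (n := a + r + 1) (fun t : ZMod (a + r + 1) =>
        ((kw k β (xs (sg (a + r + 1) L l) U t) (gs (sg (a + r + 1) L l) U t)
          (xs (sg (a + r + 1) L l) U (t + 1)) : ℝ) : ℂ))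
        (fun t : ZMod (a + r + 1) => Dr' ρ a b t.val (xs (sg (a + r + 1) L l) U t) *
          Tr' ρ a b t.val (gs (sg (a + r + 1) L l) U t))
    refine (congrArg trace h2).trans ?_
    rw [Matrix.trace_smul, trace_loop ρ ha (by omega), smul_eq_mul]
    congr 1
    rw [← prod_kw]
    push_cast
    rfl
  simp only [hint] at h1
  refine h1.trans ?_
  congr 1
  funext y
  congr 1
  have hW : ∀ (i : ℕ) (x x' : Fin 3 × Sp L l → SU N),
      mint (PM μ (Sp L l)) (fun g => Dr' ρ a b i x *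
        (((kw k β x g x' : ℝ) : ℂ) • Tr' ρ a b i g)) =
      Dr' ρ a b i x * mint (PM μ (Sp L l)) fun g =>
        ((kw k β x g x' : ℝ) : ℂ) • Tr' ρ a b i g := by
    intro i x x'
    refine mint_mul_left _ ?_
    exact (BT.smul (BM.toC (BM_cont (kw_cont k β))) ((Tr'_bt hρ a b i).comp measurable_snd)).comp
      (φ := fun g : Sp L l → SU N => ((x, x'), g)) (measurable_const.prodMk measurable_id)
  refine Itv_two (κ0 := kar ρ μ k β b) (κ1 := kir d μ k β) (D0 := fun x => (Er ρ b x)ᴴ)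
    (D1 := Er ρ b) (kar_bt μ hρ k β b) (kir_bt μ k β) (Er_bt hρ b) ha ?_ ?_ ?_ ?_ y
  · intro x v
    rw [hW]
    simp only [Dr', Tr', if_true, if_pos (show 0 < a by omega)]
    rfl
  · intro i h1 h2
    funext x v
    rw [hW]
    simp only [Dr', Tr']
    rw [if_neg (by omega), if_neg (by omega), one_mul]
    simp only [if_pos h2]
    rfl
  · intro x v
    rw [hW]
    simp only [Dr', Tr', if_true, if_neg (show ¬ a = 0 by omega), if_neg (lt_irrefl a)]
    rfl
  · intro i h1 h2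
    funext x v
    rw [hW]
    simp only [Dr', Tr']
    rw [if_neg (by omega), if_neg (by omega), one_mul]
    simp only [if_neg (show ¬ i < a by omega)]
    rfl

/-- the correlation of two Polyakov loops -/
theorem Fr_eq (hρ : Continuous ρ) [μ.IsInvInvariant] (k : ℕ) (β : ℝ) (R m : ℕ) :
    Fr ρ (m + 1) L l μ k β R =
      (1 / (d : ℝ) ^ 2) * TrM (PM μ (Fin 3 × Sp L l)) (kar ρ μ k β R) (m + 1) := by
  have h1 := slicesM (μ := μ) (sg (m + 1) L l)
    (W := fun x g x' => ((kw k β x g x' : ℝ) : ℂ) • TR ρ R g) (WR_bt hρ k β R)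
  have hint : ∀ U : Link (m + 1) L l → SU N,
      trace (op (n := m + 1) fun t : ZMod (m + 1) =>
        ((kw k β (xs (sg (m + 1) L l) U t) (gs (sg (m + 1) L l) U t)
          (xs (sg (m + 1) L l) U (t + 1)) : ℝ) : ℂ) • TR ρ R (gs (sg (m + 1) L l) U t)) =
      ((Real.exp (-(β * action k U)) : ℝ) : ℂ) *
        (trace (ρ (line U 0)).1 * conj (trace (ρ (line U (R : ZMod L))).1)) := by
    intro U
    have h2 := op_smul (n := m + 1) (fun t : ZMod (m + 1) =>
        ((kw k β (xs (sg (m + 1) L l) U t) (gs (sg (m + 1) L l) U t)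
          (xs (sg (m + 1) L l) U (t + 1)) : ℝ) : ℂ))
        (fun t : ZMod (m + 1) => TR ρ R (gs (sg (m + 1) L l) U t))
    refine (congrArg trace h2).trans ?_
    rw [Matrix.trace_smul, trace_TR, smul_eq_mul]
    congr 1
    rw [← prod_kw]
    push_cast
    rfl
  simp only [hint] at h1
  have hN : (d : ℝ) ≠ 0 := by exact_mod_cast NeZero.ne d
  have hNc : (d : ℂ) ≠ 0 := by exact_mod_cast NeZero.ne d
  unfold Fr TrM
  have hbc : BC fun U : Link (m + 1) L l → SU N => ((Real.exp (-(β * action k U)) : ℝ) : ℂ) *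
        (trace (ρ (line U 0)).1 * conj (trace (ρ (line U (R : ZMod L))).1)) := by
    have hb : ∀ t : ZMod (m + 1), BT fun U : Link (m + 1) L l → SU N =>
        ((kw k β (xs (sg (m + 1) L l) U t) (gs (sg (m + 1) L l) U t)
          (xs (sg (m + 1) L l) U (t + 1)) : ℝ) : ℂ) • TR ρ R (gs (sg (m + 1) L l) U t) := fun t =>
      (WR_bt hρ k β R).comp (φ := fun U : Link (m + 1) L l → SU N =>
        ((xs (sg (m + 1) L l) U t, xs (sg (m + 1) L l) U (t + 1)), gs (sg (m + 1) L l) U t))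
        (((xs_meas _ t).prodMk (xs_meas _ (t + 1))).prodMk (gs_meas _ t))
    have h3 := (BT_op (n := m + 1) (M := fun (U : Link (m + 1) L l → SU N) (t : ZMod (m + 1)) =>
        ((kw k β (xs (sg (m + 1) L l) U t) (gs (sg (m + 1) L l) U t)
          (xs (sg (m + 1) L l) U (t + 1)) : ℝ) : ℂ) • TR ρ R (gs (sg (m + 1) L l) U t)) hb).trace
    simp only [hint] at h3
    exact h3
  have h4 : (∫ U : Link (m + 1) L l → SU N, ((Real.exp (-(β * action k U)) : ℝ) : ℂ) *
        (trace (ρ (line U 0)).1 * conj (trace (ρ (line U (R : ZMod L))).1))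
          ∂(PM μ (Link (m + 1) L l))).re =
      (∫ y, trace (kM (PM μ (Fin 3 × Sp L l)) (kar ρ μ k β R) (m + 1) y y)
        ∂(PM μ (Fin 3 × Sp L l))).re := congrArg Complex.re h1
  rw [← h4, re_int hbc, ← integral_const_mul]
  congr 1
  funext U
  rw [Complex.re_ofReal_mul]
  have e1 : trace (ρ (line U 0)).1 / (d : ℂ) * star (trace (ρ (line U (R : ZMod L))).1 / (d : ℂ)) =
      ((1 / (d : ℝ) ^ 2 : ℝ) : ℂ) * (trace (ρ (line U 0)).1 *
        conj (trace (ρ (line U (R : ZMod L))).1)) := by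
    rw [star_div₀, RCLike.star_def, Complex.conj_natCast]
    push_cast
    field_simp
  rw [e1, Complex.re_ofReal_mul]
  ring

/-- the partition function -/
theorem Zn_eq (k : ℕ) (β : ℝ) (m : ℕ) :
    TrM (PM μ (Fin 3 × Sp L l)) (kir d μ k β) (m + 1) =
      (d : ℝ) ^ 2 * Zn (m + 1) L l μ k β := by
  have h1 := slicesM (μ := μ) (sg (m + 1) L l)
    (W := fun x g x' => ((kw k β x g x' : ℝ) : ℂ) • (1 : Matrix (JJ d) (JJ d) ℂ)) (kirW_bt k β)
  have hint : ∀ U : Link (m + 1) L l → SU N,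
      trace (op (n := m + 1) fun t : ZMod (m + 1) =>
        ((kw k β (xs (sg (m + 1) L l) U t) (gs (sg (m + 1) L l) U t)
          (xs (sg (m + 1) L l) U (t + 1)) : ℝ) : ℂ) • (1 : Matrix (JJ d) (JJ d) ℂ)) =
      (((d : ℝ) ^ 2 * Real.exp (-(β * action k U)) : ℝ) : ℂ) := by
    intro U
    have h2 := op_smul (n := m + 1) (fun t : ZMod (m + 1) =>
        ((kw k β (xs (sg (m + 1) L l) U t) (gs (sg (m + 1) L l) U t)
          (xs (sg (m + 1) L l) U (t + 1)) : ℝ) : ℂ))
        (fun t : ZMod (m + 1) => (1 : Matrix (JJ d) (JJ d) ℂ))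
    refine (congrArg trace h2).trans ?_
    have h3 : (op (n := m + 1) fun t : ZMod (m + 1) => (1 : Matrix (JJ d) (JJ d) ℂ)) = 1 := by
      have h4 := op_hp (fun _ => (1 : Matrix (JJ d) (JJ d) ℂ)) (m + 1)
      rw [hp_one] at h4
      exact h4
    rw [h3, Matrix.trace_smul, trace_one, smul_eq_mul, Fintype.card_prod, Fintype.card_fin,
      Complex.ofReal_mul, mul_comm]
    refine congrArg₂ (· * ·) ?_ ?_
    · push_cast
      ring
    · rw [← prod_kw]
      push_cast
      rfl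
  simp only [hint] at h1
  unfold TrM Zn
  rw [← integral_const_mul]
  have h2 : (∫ U : Link (m + 1) L l → SU N, (((d : ℝ) ^ 2 * Real.exp (-(β * action k U)) : ℝ) : ℂ)
      ∂(PM μ (Link (m + 1) L l))).re =
      (∫ y, trace (kM (PM μ (Fin 3 × Sp L l)) (kir d μ k β) (m + 1) y y)
        ∂(PM μ (Fin 3 × Sp L l))).re := congrArg Complex.re h1
  rw [← h2, integral_complex_ofReal, Complex.ofReal_re]

end main

end

end Run7.h182.WL
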