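import Pool.Agent.Run7.h182.PC.PC3

/-!
# Ordered products around a circle, with different kernels in the layers
-/

set_option autoImplicit false
set_option linter.unusedSectionVars false
set_option linter.unusedVariables false

open MeasureTheory Matrix
open scoped ComplexConjugate
open Pool.Agent.Run7.h897.FS
open Run7.h4.YM (hp hp_zero hp_succ hp_add hp_congr)

namespace Run7.h182.WL

open Run7.h182.PC

noncomputable section

variable {X Y : Type*} [MeasurableSpace X] [MeasurableSpace Y] {J : Type*} [Fintype J]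
  [DecidableEq J]

lemma op_hp (M : ℕ → Matrix J J ℂ) (n : ℕ) : (op fun t : Fin n => M t) = hp M n := by
  induction n with
  | zero => rw [op_zero, hp_zero]
  | succ n ih =>
    rw [op_last, hp_succ]
    simp only [Fin.val_castSucc, Fin.val_last]
    rw [ih]

section

variable {μ : Measure X} {ν : Measure Y} [IsProbabilityMeasure μ] [IsProbabilityMeasure ν]

/-- iterated application of a sequence of kernels -/
def Itv (μ : Measure X) : ℕ → (ℕ → X → X → Matrix J J ℂ) → (X → Matrix J J ℂ) →
    X → Matrix J J ℂ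
  | 0, _, h => h
  | n + 1, κ, h => fun y => mint μ fun v => κ 0 y v * Itv μ n (fun i => κ (i + 1)) h v

lemma Itv_bm (n : ℕ) : ∀ {κ : ℕ → X → X → Matrix J J ℂ}, (∀ i, BT (Function.uncurry (κ i))) →
    ∀ {h : X → Matrix J J ℂ}, BT h → BT (Itv μ n κ h) := by
  induction n with
  | zero => exact fun _ h hh => hh
  | succ n ih =>
    intro κ hk h hh
    have h1 : BT fun w : X × X => κ 0 w.1 w.2 * Itv μ n (fun i => κ (i + 1)) h w.2 :=
      BT.mul (hk 0) ((ih (fun i => hk (i + 1)) hh).comp measurable_snd)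
    exact h1.intg

lemma chainV (n : ℕ) : ∀ {κ : ℕ → X → X → Matrix J J ℂ}, (∀ i, BT (Function.uncurry (κ i))) →
    ∀ {h : X → Matrix J J ℂ}, BT h → ∀ y,
    mint (Measure.pi fun _ => μ) (fun u : Fin n → X =>
      (op fun t : Fin n => κ t ((Fin.cons y u : Fin (n + 1) → X) t.castSucc)
        ((Fin.cons y u : Fin (n + 1) → X) t.succ)) *
      h ((Fin.cons y u : Fin (n + 1) → X) (Fin.last n))) = Itv μ n κ h y := by
  induction n with
  | zero =>
    intro κ hk h hh y
    simp only [op_zero, Matrix.one_mul]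
    have : ∀ u : Fin 0 → X, h ((Fin.cons y u : Fin 1 → X) (Fin.last 0)) = h y := fun u => rfl
    simp only [this]
    exact mint_const _
  | succ n ih =>
    intro κ hk h hh y
    have hb : ∀ y, BT fun u : Fin (n + 1) → X =>
        (op fun t : Fin (n + 1) => κ t ((Fin.cons y u : Fin (n + 2) → X) t.castSucc)
          ((Fin.cons y u : Fin (n + 2) → X) t.succ)) *
        h ((Fin.cons y u : Fin (n + 2) → X) (Fin.last (n + 1))) := by
      intro y
      refine BT.mul (BT_op fun t => ?_) ?_
      · exact (hk t).comp (φ := fun u : Fin (n + 1) → X =>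
          ((Fin.cons y u : Fin (n + 2) → X) t.castSucc, (Fin.cons y u : Fin (n + 2) → X) t.succ))
          (((measurable_pi_apply _).comp (cons_bm y)).prodMk
          ((measurable_pi_apply _).comp (cons_bm y)))
      · exact hh.comp ((measurable_pi_apply _).comp (cons_bm y))
    have hb' : ∀ y, BT fun u : Fin n → X =>
        (op fun t : Fin n => κ (t + 1) ((Fin.cons y u : Fin (n + 1) → X) t.castSucc)
          ((Fin.cons y u : Fin (n + 1) → X) t.succ)) *
        h ((Fin.cons y u : Fin (n + 1) → X) (Fin.last n)) := by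
      intro y
      refine BT.mul (BT_op fun t => ?_) ?_
      · exact (hk (t + 1)).comp (φ := fun u : Fin n → X =>
          ((Fin.cons y u : Fin (n + 1) → X) t.castSucc, (Fin.cons y u : Fin (n + 1) → X) t.succ))
          (((measurable_pi_apply _).comp (cons_bm y)).prodMk
          ((measurable_pi_apply _).comp (cons_bm y)))
      · exact hh.comp ((measurable_pi_apply _).comp (cons_bm y))
    rw [mint_cons (hb y)]
    simp only [Itv]
    congr 1
    funext v
    rw [← ih (fun i => hk (i + 1)) hh v, ← mint_mul_left _ (hb' v)]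
    congr 1
    funext u
    rw [op_succ]
    have e1 : (Fin.cons y (Fin.cons v u : Fin (n + 1) → X) : Fin (n + 2) → X)
        (Fin.castSucc 0) = y := rfl
    have e2 : (Fin.cons y (Fin.cons v u : Fin (n + 1) → X) : Fin (n + 2) → X)
        (Fin.succ 0) = v := rfl
    have e3 : ∀ t : Fin n, (Fin.cons y (Fin.cons v u : Fin (n + 1) → X) : Fin (n + 2) → X)
        (Fin.castSucc t.succ) = (Fin.cons v u : Fin (n + 1) → X) t.castSucc := fun t => by
      rw [← Fin.succ_castSucc, Fin.cons_succ]
    have e4 : ∀ t : Fin n, (Fin.cons y (Fin.cons v u : Fin (n + 1) → X) : Fin (n + 2) → X)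
        (Fin.succ t.succ) = (Fin.cons v u : Fin (n + 1) → X) t.succ := fun t => by
      rw [Fin.cons_succ]
    have e5 : (Fin.cons y (Fin.cons v u : Fin (n + 1) → X) : Fin (n + 2) → X)
        (Fin.last (n + 1)) = (Fin.cons v u : Fin (n + 1) → X) (Fin.last n) := by
      rw [← Fin.succ_last, Fin.cons_succ]
    simp only [e1, e2, e3, e4, e5, Fin.val_succ, Fin.val_zero]
    rw [Matrix.mul_assoc]

/-- ordered products around a circle -/
theorem ringV {κ : ℕ → X → X → Matrix J J ℂ} (hk : ∀ i, BT (Function.uncurry (κ i))) (n : ℕ) :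
    ∫ x : Fin (n + 1) → X, trace (op fun t : Fin (n + 1) => κ t (x t) (x (t + 1)))
      ∂(Measure.pi fun _ => μ) = ∫ y, trace (Itv μ n κ (fun u => κ n u y) y) ∂μ := by
  have hb : BC fun x : Fin (n + 1) → X =>
      trace (op fun t : Fin (n + 1) => κ t (x t) (x (t + 1))) :=
    (BT_op fun t => (hk t).comp (φ := fun x : Fin (n + 1) → X => (x t, x (t + 1)))
      ((measurable_pi_apply _).prodMk (measurable_pi_apply _))).trace
  rw [cint_cons hb]
  congr 1
  funext y
  have hby : BT fun u => κ n u y := (hk n).comp (measurable_id.prodMk measurable_const)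
  have h1 := chainV (μ := μ) n hk hby y
  have hb' : BT fun u : Fin n → X =>
      (op fun t : Fin n => κ t ((Fin.cons y u : Fin (n + 1) → X) t.castSucc)
        ((Fin.cons y u : Fin (n + 1) → X) t.succ)) *
      κ n ((Fin.cons y u : Fin (n + 1) → X) (Fin.last n)) y := by
    refine BT.mul (BT_op fun t => ?_) ?_
    · exact (hk t).comp (φ := fun u : Fin n → X =>
        ((Fin.cons y u : Fin (n + 1) → X) t.castSucc, (Fin.cons y u : Fin (n + 1) → X) t.succ))
        (((measurable_pi_apply _).comp (cons_bm y)).prodMk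
        ((measurable_pi_apply _).comp (cons_bm y)))
    · exact hby.comp ((measurable_pi_apply _).comp (cons_bm y))
  rw [← h1, mint_trace hb']
  congr 1
  funext u
  rw [op_last]
  have e1 : ∀ t : Fin n, (Fin.cons y u : Fin (n + 1) → X) (t.castSucc + 1) =
      (Fin.cons y u : Fin (n + 1) → X) t.succ := fun t => by rw [Fin.coeSucc_eq_succ]
  have e2 : (Fin.cons y u : Fin (n + 1) → X) (Fin.last n + 1) = y := by
    rw [Fin.last_add_one]; rfl
  simp only [e1, e2, Fin.val_castSucc, Fin.val_last]

/-! ### evaluation -/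

lemma Itv_const {κ0 : X → X → Matrix J J ℂ} (n : ℕ) : ∀ {κ : ℕ → X → X → Matrix J J ℂ},
    (∀ i, i < n → κ i = κ0) → ∀ h : X → Matrix J J ℂ, Itv μ n κ h = ItM μ κ0 n h := by
  induction n with
  | zero => exact fun _ h => rfl
  | succ n ih =>
    intro κ hκ h
    funext y
    simp only [Itv, ItM]
    rw [ih (κ := fun i => κ (i + 1)) (fun i hi => hκ (i + 1) (by omega)) h, hκ 0 (by omega)]

lemma Itv_add (m n : ℕ) : ∀ (κ : ℕ → X → X → Matrix J J ℂ) (h : X → Matrix J J ℂ),
    Itv μ (m + n) κ h = Itv μ m κ (Itv μ n (fun i => κ (m + i)) h) := by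
  induction m with
  | zero =>
    intro κ h
    simp only [Itv, zero_add]
  | succ m ih =>
    intro κ h
    rw [show m + 1 + n = m + n + 1 by ring]
    funext y
    simp only [Itv]
    rw [ih (fun i => κ (i + 1)) h]
    have : ∀ i, m + i + 1 = m + 1 + i := fun i => by ring
    simp only [this]

lemma ItM_eq {κ : X → X → Matrix J J ℂ} (hk : BT (Function.uncurry κ)) {n : ℕ} (hn : 1 ≤ n)
    {h : X → Matrix J J ℂ} (hh : BT h) (x : X) :
    ItM μ κ n h x = mint μ fun u => kM μ κ n x u * h u := by
  induction n, hn using Nat.le_induction generalizing x with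
  | base => rfl
  | succ n hn ih =>
    have b1 : ∀ u, BT fun v => kM μ κ n u v * h v := fun u => (kM_l hk hn u).mul hh
    have e0 : ItM μ κ (n + 1) h x = mint μ fun v => κ x v * ItM μ κ n h v := rfl
    have e1 : ∀ u, κ x u * ItM μ κ n h u = mint μ fun v => κ x u * (kM μ κ n u v * h v) :=
      fun u => by rw [ih, mint_mul_left _ (b1 u)]
    have b0 : BT fun u => κ x u := hk.comp (measurable_const.prodMk measurable_id)
    have b2 : ∀ v, BT fun u => κ x u * kM μ κ n u v := fun v => b0.mul (kM_r hk hn v)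
    have e2 : ∀ v, kM μ κ (n + 1) x v * h v =
        mint μ fun u => κ x u * (kM μ κ n u v * h v) := fun v => by
      rw [kM_succ hn, ← mint_mul_right _ (b2 v)]
      congr 1
      funext u
      rw [Matrix.mul_assoc]
    rw [e0]
    simp only [e1, e2]
    refine mint_swap ?_
    exact (hk.comp (measurable_const.prodMk measurable_fst)).mul
      (((kM_bm hk hn).comp (measurable_fst.prodMk measurable_snd)).mul
        (hh.comp measurable_snd))

lemma Itv_head {κ0 : X → X → Matrix J J ℂ} (hk : BT (Function.uncurry κ0))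
    {κ : ℕ → X → X → Matrix J J ℂ} {D : X → Matrix J J ℂ}
    (h0 : ∀ x v, κ 0 x v = D x * κ0 x v) {j : ℕ} (hj : 1 ≤ j)
    (h : ∀ i, 1 ≤ i → i < j → κ i = κ0) {f : X → Matrix J J ℂ} (hf : BT f) (x : X) :
    Itv μ j κ f x = D x * mint μ fun u => kM μ κ0 j x u * f u := by
  obtain ⟨m, rfl⟩ : ∃ m, j = m + 1 := ⟨j - 1, by omega⟩
  rw [← ItM_eq hk hj hf]
  simp only [Itv, ItM]
  rw [Itv_const (κ0 := κ0) m (κ := fun i => κ (i + 1)) (fun i hi => h (i + 1) (by omega)
    (by omega)) f]
  rw [← mint_mul_left]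
  · congr 1
    funext v
    rw [h0, Matrix.mul_assoc]
  · exact (hk.comp (measurable_const.prodMk measurable_id)).mul (ItM_bm hk m hf)

/-- two arcs with insertions at their ends -/
theorem Itv_two {κ0 κ1 : X → X → Matrix J J ℂ} (hk0 : BT (Function.uncurry κ0))
    (hk1 : BT (Function.uncurry κ1)) {κ : ℕ → X → X → Matrix J J ℂ} {D0 D1 : X → Matrix J J ℂ}
    (hD1 : BT D1) {a r : ℕ} (ha : 1 ≤ a)
    (h0 : ∀ x v, κ 0 x v = D0 x * κ0 x v) (h1 : ∀ i, 1 ≤ i → i < a → κ i = κ0)
    (h2 : ∀ x v, κ a x v = D1 x * κ1 x v) (h3 : ∀ i, a < i → i ≤ a + r → κ i = κ1) (y : X) :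
    Itv μ (a + r) κ (fun u => κ (a + r) u y) y =
      D0 y * mint μ fun u => kM μ κ0 a y u * (D1 u * kM μ κ1 (r + 1) u y) := by
  have hb : BT fun u => D1 u * kM μ κ1 (r + 1) u y := hD1.mul (kM_r hk1 (by omega) y)
  have key : Itv μ r (fun i => κ (a + i)) (fun u => κ (a + r) u y) =
      fun u => D1 u * kM μ κ1 (r + 1) u y := by
    rcases Nat.eq_zero_or_pos r with rfl | hr
    · funext u
      simp only [Itv, add_zero, zero_add]
      rw [h2, kM_one]
    · funext u
      have e1 : (fun u => κ (a + r) u y) = fun u => kM μ κ1 1 u y := by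
        funext u
        rw [h3 (a + r) (by omega) le_rfl, kM_one]
      rw [e1, Itv_head (κ := fun i => κ (a + i)) (D := D1) hk1 (fun x v => by rw [add_zero, h2]) hr
        (fun i hi hir => h3 (a + i) (by omega) (by omega)) (kM_r hk1 le_rfl y)]
      rw [kM_semi hk1 hr le_rfl]
  rw [Itv_add, key]
  exact Itv_head hk0 h0 ha h1 hb y

end

/-! ### slices -/

section slices

variable {G : Type*} {E A B : Type} [Fintype E] [Fintype A] [Fintype B] {n : ℕ}
  (σ : (ZMod (n + 1) × A) ⊕ (ZMod (n + 1) × B) ≃ E) [MeasurableSpace G] {μ : Measure G}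
  [IsProbabilityMeasure μ]

/-- the trace of the ordered product of the weights of the layers -/
theorem slicesV {W : ℕ → (A → G) → (B → G) → (A → G) → Matrix J J ℂ}
    (hW : ∀ i, BT fun w : ((A → G) × (A → G)) × (B → G) => W i w.1.1 w.2 w.1.2) :
    ∫ U, trace (op (n := n + 1) fun t : ZMod (n + 1) =>
        W t.val (xs σ U t) (gs σ U t) (xs σ U (t + 1))) ∂(PM μ E) =
      ∫ y, trace (Itv (PM μ A) n (fun i x x' => mint (PM μ B) fun g => W i x g x')
        (fun u => mint (PM μ B) fun g => W n u g y) y) ∂(PM μ A) := by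
  have hk : ∀ i, BT (Function.uncurry fun x x' : A → G => mint (PM μ B) fun g => W i x g x') :=
    fun i => (hW i).intg
  have hbW : ∀ (t : ZMod (n + 1)), BT fun w : (ZMod (n + 1) → A → G) × (ZMod (n + 1) → B → G) =>
      W t.val (w.1 t) (w.2 t) (w.1 (t + 1)) := fun t =>
    (hW t.val).comp (φ := fun w : (ZMod (n + 1) → A → G) × (ZMod (n + 1) → B → G) =>
        ((w.1 t, w.1 (t + 1)), w.2 t))
      ((((measurable_pi_apply t).comp measurable_fst).prodMk
        ((measurable_pi_apply (t + 1)).comp measurable_fst)).prodMk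
        ((measurable_pi_apply t).comp measurable_snd))
  have hb : BC fun w : (ZMod (n + 1) → A → G) × (ZMod (n + 1) → B → G) =>
      trace (op (n := n + 1) fun t : ZMod (n + 1) => W t.val (w.1 t) (w.2 t) (w.1 (t + 1))) :=
    (BT_op (n := n + 1) (M := fun (w : (ZMod (n + 1) → A → G) × (ZMod (n + 1) → B → G))
      (t : ZMod (n + 1)) => W t.val (w.1 t) (w.2 t) (w.1 (t + 1))) hbW).trace
  rw [cint_slices (μ := μ) σ hb]
  have hR := ringV (μ := PM μ A) hk n
  refine Eq.trans ?_ hR
  congr 1
  funext x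
  have h1 : ∀ t : ZMod (n + 1), BT fun g : B → G => W t.val (x t) g (x (t + 1)) := fun t =>
    (hW t.val).comp (φ := fun g : B → G => ((x t, x (t + 1)), g))
      (measurable_const.prodMk measurable_id)
  have h2 := mint_op (ν := PM μ B) (n := n + 1) (fun t : ZMod (n + 1) => fun g : B → G =>
    W t.val (x t) g (x (t + 1))) h1
  have h3 : BT fun g : Fin (n + 1) → B → G => op (n := n + 1) fun t : ZMod (n + 1) =>
      W t.val (x t) (g t) (x (t + 1)) :=
    BT_op (n := n + 1) (M := fun (g : Fin (n + 1) → B → G) (t : ZMod (n + 1)) =>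
      W t.val (x t) (g t) (x (t + 1))) fun t => (h1 t).comp (measurable_pi_apply _)
  have h4 := mint_trace (μ := Measure.pi fun _ : Fin (n + 1) => PM μ B) h3
  exact h4.symm.trans (congrArg trace h2)

end slices

end

end Run7.h182.WL
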