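import Pool.Agent.Run7.h182.WL.Rep

/-!
# W1: the Wilson loop is bounded by the exponential rate of the Polyakov loops
-/

set_option autoImplicit false
set_option linter.unusedSectionVars false
set_option linter.unusedVariables false

open MeasureTheory Matrix Filter Topology
open Pool.Agent.Run7.h897.FS
open Run7.h4.YM

namespace Run7.h182.WL

open Run7.h182.PC

noncomputable section

variable {N L l d : ℕ} [NeZero N] [NeZero L] [NeZero l] [NeZero d]
  {ρ : SU N →* unitaryGroup (Fin d) ℂ} [MeasurableSpace (SU N)] [BorelSpace (SU N)]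
  (μ : Measure (SU N)) [IsProbabilityMeasure μ]

lemma Zn_pos (n : ℕ) [NeZero n] (k : ℕ) (β : ℝ) : 0 < Zn n L l μ k β := by
  unfold Zn
  have hc : Continuous fun U : Link n L l → SU N => Real.exp (-(β * action k U)) :=
    Real.continuous_exp.comp ((cont_action k).const_mul β).neg
  have hi : Integrable (fun U : Link n L l → SU N => Real.exp (-(β * action k U)))
      (Measure.pi fun _ => μ) := (BM_cont hc).int
  exact integral_exp_pos hi

/-- the integral of the Wilson loop for all sizes -/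
lemma Wn_eq (hρ : Continuous ρ) (k : ℕ) (β : ℝ) {a r r' : ℕ} (ha : 1 ≤ a) (hr : 1 ≤ r)
    (n : ℕ) [NeZero n] (hn : n = a + (r + r')) (b : ℕ) :
    Wn ρ n L l μ k β a b = (1 / d : ℂ) *
    ∫ y, trace ((Er ρ b y)ᴴ * mint (PM μ (Fin 3 × Sp L l)) fun u =>
      kM (PM μ (Fin 3 × Sp L l)) (kar ρ μ k β b) a y u *
        (Er ρ b u * kM (PM μ (Fin 3 × Sp L l)) (kir d μ k β) (r + r') u y))
        ∂(PM μ (Fin 3 × Sp L l)) := by
  obtain ⟨s, hs⟩ : ∃ s, r + r' = s + 1 := ⟨r + r' - 1, by omega⟩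
  rw [hs] at hn ⊢
  have hn' : n = a + s + 1 := by omega
  clear hn
  subst hn'
  rw [← int_loop μ hρ k β ha b, ← integral_const_mul]
  unfold Wn wilson
  congr 1
  funext U
  push_cast
  ring

lemma Fr_TrM (hρ : Continuous ρ) [μ.IsInvInvariant] (k : ℕ) (β : ℝ) (R n : ℕ) [NeZero n] :
    TrM (PM μ (Fin 3 × Sp L l)) (kar ρ μ k β R) n = (d : ℝ) ^ 2 * Fr ρ n L l μ k β R := by
  obtain ⟨m, hm⟩ : ∃ m, n = m + 1 := ⟨n - 1, by have := NeZero.pos n; omega⟩
  subst hm
  have hd : (d : ℝ) ≠ 0 := by exact_mod_cast NeZero.ne d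
  rw [Fr_eq μ hρ]
  field_simp

lemma Zn_TrM (k : ℕ) (β : ℝ) (n : ℕ) [NeZero n] :
    TrM (PM μ (Fin 3 × Sp L l)) (kir d μ k β) n = (d : ℝ) ^ 2 * Zn n L l μ k β := by
  obtain ⟨m, hm⟩ : ∃ m, n = m + 1 := ⟨n - 1, by have := NeZero.pos n; omega⟩
  subst hm
  exact Zn_eq μ k β m

/-- the bound in finite volume -/
theorem Wn_le (hρ : Continuous ρ) [μ.IsInvInvariant] (k : ℕ) (β : ℝ) {a r r' m : ℕ}
    (ha : 1 ≤ a) [NeZero (2 * r)] [NeZero (2 * r')] [NeZero (4 * r)] [NeZero (4 * m)] (hm : a ≤ m)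
    (n : ℕ) [NeZero n] (hn : n = a + (r + r')) (b : ℕ) {T : ℝ} (hT0 : 0 < T)
    (hT : Fr ρ (4 * m) L l μ k β b ≤ T) :
    ‖Wn ρ n L l μ k β a b‖ ≤
      Real.exp (1 / 2 * (Real.log (Zn (2 * r') L l μ k β) +
        (1 - a / m) * Real.log (Zn (2 * r) L l μ k β) +
        a / m * (1 / 2 * Real.log (Zn (4 * r) L l μ k β) + 1 / 2 * Real.log T +
          Real.log d))) := by
  have hr : 1 ≤ r := by have := NeZero.pos (2 * r); omega
  have hr' : 1 ≤ r' := by have := NeZero.pos (2 * r'); omega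
  have hm1 : 1 ≤ m := ha.trans hm
  have hd : (0 : ℝ) < d := by exact_mod_cast NeZero.pos d
  have hm0 : (0 : ℝ) < m := by exact_mod_cast hm1
  obtain ⟨Z, hZd⟩ : ∃ Z : ℕ → ℝ, Z = fun r =>
    TrM (PM μ (Fin 3 × Sp L l)) (kir d μ k β) (2 * r) / (d : ℝ) ^ 2 := ⟨_, rfl⟩
  have hZ : ∀ (r : ℕ) [NeZero (2 * r)], Z r = Zn (2 * r) L l μ k β := by
    intro r _
    rw [hZd]
    simp only
    rw [Zn_TrM]
    field_simp
  have hZpos : ∀ (r : ℕ) [NeZero (2 * r)], 0 < Z r := by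
    intro r _
    rw [hZ]
    exact Zn_pos μ _ k β
  have hcard : Fintype.card (JJ d) = d ^ 2 := by
    rw [Fintype.card_prod, Fintype.card_fin, sq]
  haveI : NeZero (2 * (2 * r)) := ⟨by omega⟩
  have h1 := arcs_le (μ := PM μ (Fin 3 × Sp L l)) (κ0 := kar ρ μ k β b) (κ1 := kir d μ k β)
    (E := Er ρ b) (P := Pr d) (kar_bt μ hρ k β b) (kar_star μ hρ k β b) (kir_bt μ k β)
    (kir_star μ k β) (Er_bt hρ b) (Er_sq ρ b) (fun n hn => kir_sc μ k β hn) (N0 := d) hd
    (by rw [Pr_tr, Complex.natCast_re])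
    (by
      rw [Pr_sq, Matrix.trace_smul, Pr_tr, smul_eq_mul]
      have : ((d : ℂ) * d) = ((d ^ 2 : ℝ) : ℂ) := by push_cast; ring
      rw [this, Complex.ofReal_re])
    (Z := Z) (fun r hr => by
      haveI : NeZero (2 * r) := ⟨by omega⟩
      rw [hZ, Zn_TrM, hcard]
      push_cast
      ring)
    (by rw [hcard]; exact pow_pos (NeZero.pos d) 2) ha hr hr' hm (T := (d : ℝ) ^ 2 * T) (by positivity)
    (by
      rw [Fr_TrM μ hρ]
      exact mul_le_mul_of_nonneg_left hT (by positivity))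
    (hZpos r) (hZpos r') (hZpos (2 * r))
  rw [Wn_eq μ hρ k β ha hr n hn b, norm_mul]
  have e1 : ‖(1 / d : ℂ)‖ = 1 / d := by
    rw [norm_div, norm_one, Complex.norm_natCast]
  rw [e1]
  have e2 : Z (2 * r) = Zn (4 * r) L l μ k β := by
    rw [hZ]
    congr 1
    ring
  rw [e2, hZ r, hZ r'] at h1
  have p1 := Zn_pos (L := L) (l := l) μ (2 * r) k β
  have p2 := Zn_pos (L := L) (l := l) μ (2 * r') k β
  rw [Real.log_mul hd.ne' p1.ne', Real.log_mul hd.ne' p2.ne', Real.log_mul (by positivity) hT0.ne',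
    Real.log_pow] at h1
  have h2 : 1 / (d : ℝ) = Real.exp (-Real.log d) := by
    rw [Real.exp_neg, Real.exp_log hd, one_div]
  rw [h2]
  refine (mul_le_mul_of_nonneg_left h1 (Real.exp_pos _).le).trans (le_of_eq ?_)
  rw [← Real.exp_add]
  congr 1
  push_cast
  field_simp
  ring

theorem tW1 : S_W1 := by
  intro N l k L d _ _ _ _ _ _ μ _ _ β ρ hρ a b r r' _ _ _ C E ha h
  haveI : μ.IsInvInvariant := inv_inv' μ
  have hr : 1 ≤ r := by have := NeZero.pos (2 * r); omega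
  haveI : NeZero (4 * r) := ⟨by omega⟩
  have p1 := Zn_pos (L := L) (l := l) μ (2 * r) k β
  have p2 := Zn_pos (L := L) (l := l) μ (2 * r') k β
  obtain ⟨C1, hC1⟩ : ∃ C1, C1 = max C 1 := ⟨_, rfl⟩
  have hC1p : 0 < C1 := by rw [hC1]; exact lt_of_lt_of_le one_pos (le_max_right _ _)
  obtain ⟨A, hA⟩ : ∃ A, A = Real.log (Zn (2 * r') L l μ k β) := ⟨_, rfl⟩
  obtain ⟨B, hB⟩ : ∃ B, B = Real.log (Zn (2 * r) L l μ k β) := ⟨_, rfl⟩
  obtain ⟨D, hD⟩ : ∃ D, D = 1 / 2 * Real.log (Zn (4 * r) L l μ k β) + 1 / 2 * Real.log C1 +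
    Real.log d := ⟨_, rfl⟩
  have key : ∀ m : ℕ, a ≤ m → ‖Wn ρ (a + (r + r')) L l μ k β a b‖ ≤
      Real.exp (1 / 2 * (A + B + a * E + a / m * (D - B))) := by
    intro m hm
    haveI : NeZero (4 * m) := ⟨by omega⟩
    haveI : NeZero (2 * (2 * m)) := ⟨by omega⟩
    have hm0 : (0 : ℝ) < m := by
      have : 1 ≤ m := ha.trans hm
      exact_mod_cast this
    have h1 : Fr ρ (4 * m) L l μ k β b ≤ C1 * Real.exp ((2 * m : ℕ) * E) := by
      have h2 := h (2 * m)
      have e : ∀ (n : ℕ) [NeZero n], n = 4 * m → Fr ρ n L l μ k β b = Fr ρ (4 * m) L l μ k β b := by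
        intro n hn hnm
        subst hnm
        rfl
      rw [e (2 * (2 * m)) (by ring)] at h2
      refine h2.trans (mul_le_mul_of_nonneg_right ?_ (Real.exp_pos _).le)
      rw [hC1]
      exact le_max_left _ _
    have h2 := Wn_le μ hρ k β ha hm (a + (r + r')) rfl b (T := C1 * Real.exp ((2 * m : ℕ) * E))
      (by positivity) h1
    refine h2.trans (le_of_eq ?_)
    rw [Real.log_mul hC1p.ne' (Real.exp_pos _).ne', Real.log_exp, hA, hB, hD]
    congr 1
    push_cast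
    field_simp
    ring
  have hlim : Tendsto (fun m : ℕ => Real.exp (1 / 2 * (A + B + a * E + a / m * (D - B)))) atTop
      (𝓝 (Real.exp (1 / 2 * (A + B + a * E + 0 * (D - B))))) := by
    refine (Real.continuous_exp.tendsto _).comp (Tendsto.const_mul _ (Tendsto.const_add _
      (Tendsto.mul_const _ ?_)))
    exact tendsto_const_nhds.div_atTop tendsto_natCast_atTop_atTop
  have hle := ge_of_tendsto hlim ((eventually_ge_atTop a).mono fun m hm => key m hm)
  refine hle.trans (le_of_eq ?_)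
  rw [Real.sqrt_eq_rpow, Real.rpow_def_of_pos (mul_pos p1 p2), Real.log_mul p1.ne' p2.ne',
    ← Real.exp_add, hA, hB]
  congr 1
  ring

end

end Run7.h182.WL
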